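import Mathlib

/-!
Definitions and the list of pieces for MP_aa1cf3_an (a uniformly bounded complete double
orthonormal system on the unit square for which every square summable double series converges
regularly almost everywhere).
-/

set_option autoImplicit false

namespace Pool.Agent.R259.DO

open MeasureTheory Set Filter Topology

/-- Rademacher functions `(-1)^⌊2^(a+1) t⌋`, `a = 0,1,2,...`. -/
noncomputable def rad (a : ℕ) (t : ℝ) : ℝ := if Even ⌊(2:ℝ) ^ (a + 1) * t⌋ then 1 else -1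

/-- Walsh functions. -/
noncomputable def wal (A : Finset ℕ) (t : ℝ) : ℝ := ∏ a ∈ A, rad a t

/-- Lebesgue measure on the closed unit square. -/
noncomputable def sq : Measure (ℝ × ℝ) := (volume : Measure (ℝ × ℝ)).restrict (Icc 0 1 ×ˢ Icc 0 1)

/-- Double Walsh functions. -/
noncomputable def W (u : Finset ℕ × Finset ℕ) (p : ℝ × ℝ) : ℝ := wal u.1 p.1 * wal u.2 p.2

/-- pairs of subsets of `{0,...,N-1}` -/
def cube (N : ℕ) : Finset (Finset ℕ × Finset ℕ) := (Finset.range N).powerset ×ˢ (Finset.range N).powerset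

/-- Level sets of the non-Rademacher Walsh functions: `L 0 = {(∅,∅)}`,
`L (n+1) = cube (n+1) \ cube n` without `({n},∅)`. -/
def L : ℕ → Finset (Finset ℕ × Finset ℕ)
  | 0 => cube 0
  | n + 1 => (cube (n + 1) \ cube n).erase ({n}, ∅)

/-- Regular convergence of a double series of real numbers. -/
def RegConv (x : ℕ → ℕ → ℝ) : Prop :=
  (∃ l, Tendsto (fun q : ℕ × ℕ => ∑ i ∈ Finset.range q.1, ∑ k ∈ Finset.range q.2, x i k) atTop (𝓝 l)) ∧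
  (∀ i, ∃ l, Tendsto (fun n => ∑ k ∈ Finset.range n, x i k) atTop (𝓝 l)) ∧
  (∀ k, ∃ l, Tendsto (fun m => ∑ i ∈ Finset.range m, x i k) atTop (𝓝 l))

/-! ### the pieces -/

/-- P0: on `[0,1)²` every function of `(⌊2^N x⌋, ⌊2^N y⌋)` is a combination of the Walsh functions
with index in `cube N`. -/
def P0 : Prop := ∀ (N : ℕ) (G : ℤ × ℤ → ℝ), ∃ c : Finset ℕ × Finset ℕ → ℝ,
  ∀ p : ℝ × ℝ, p ∈ Ico (0:ℝ) 1 ×ˢ Ico (0:ℝ) 1 →
    G (⌊(2:ℝ) ^ N * p.1⌋, ⌊(2:ℝ) ^ N * p.2⌋) = ∑ u ∈ cube N, c u * W u p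

/-- P1: the double Walsh system is measurable, unimodular and orthonormal. -/
def P1 : Prop := (∀ u, Measurable (W u)) ∧ (∀ u p, |W u p| = 1) ∧
  ∀ u v, ∫ p, W u p * W v p ∂sq = if u = v then 1 else 0

/-- P2: fourth moments of Rademacher sums. -/
def P2 : Prop := ∀ (s : Finset ℕ) (β : ℕ → ℝ),
  ∫ p, (∑ a ∈ s, β a * W ({a}, ∅) p) ^ 4 ∂sq ≤ 3 * (∑ a ∈ s, β a ^ 2) ^ 2

/-- P3: completeness of the double Walsh system. -/
def P3 : Prop := ∀ f : ℝ × ℝ → ℝ, MemLp f 2 sq → (∀ u, ∫ p, f p * W u p ∂sq = 0) → f =ᵐ[sq] 0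

/-- P4: almost everywhere convergence of the dyadic partial sums. -/
def P4 : Prop := ∀ d : Finset ℕ × Finset ℕ → ℝ, Summable (fun u => d u ^ 2) →
  ∀ᵐ p ∂sq, ∃ l, Tendsto (fun N => ∑ u ∈ cube N, d u * W u p) atTop (𝓝 l)

/-- P5: orthogonal matrices of order `2^p` with constant first column and bounded row sums. -/
def P5 : Prop := ∀ p : ℕ, ∃ H : Fin (2 ^ p) → Fin (2 ^ p) → ℝ,
  (∀ s s', ∑ t, H s t * H s' t = if s = s' then 1 else 0) ∧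
  (∀ t t', ∑ s, H s t * H s t' = if t = t' then 1 else 0) ∧
  (∀ s, H s ⟨0, by positivity⟩ = (√(2 ^ p))⁻¹) ∧ ∀ s, ∑ t, |H s t| ≤ 3

/-- P6: regular a.e. convergence of double series with respect to systems satisfying a fourth
moment inequality. -/
def P6 : Prop := ∀ (Ω : Type) [MeasurableSpace Ω] (μ : Measure Ω) [IsFiniteMeasure μ]
  (X : ℕ → ℕ → Ω → ℝ) (C : ℝ), (∀ i k, Measurable (X i k)) → (∀ i k, ∃ B, ∀ ω, |X i k ω| ≤ B) →
  (∀ (Q : Finset (ℕ × ℕ)) (a : ℕ × ℕ → ℝ),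
    ∫ ω, (∑ q ∈ Q, a q * X q.1 q.2 ω) ^ 4 ∂μ ≤ C * (∑ q ∈ Q, a q ^ 2) ^ 2) →
  ∀ a : ℕ × ℕ → ℝ, Summable (fun q => a q ^ 2) →
    ∀ᵐ ω ∂μ, RegConv (fun i k => a (i, k) * X i k ω)

/-- P7: concatenation of finite blocks. -/
def P7 : Prop := ∀ M : ℕ → ℕ, (∀ n, 0 < M n) → ∃ e : ℕ ≃ (Σ n, Fin (M n)),
  ∀ (X : (Σ n, Fin (M n)) → ℝ) (k : ℕ), ∑ i ∈ Finset.range k, X (e i) =
    ∑ n ∈ Finset.range (e k).1, ∑ j, X ⟨n, j⟩ +
      ∑ j : Fin (M (e k).1), if j < (e k).2 then X ⟨(e k).1, j⟩ else 0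

/-- P8: the assignment of base functions to the slots of the mixing blocks. -/
def P8 : Prop := ∀ P : ℕ → ℕ, ∀ hP : ∀ n, 0 < P n,
  ∃ τ : ((Σ n, Fin ((L n).card) × Fin (P n)) ⊕ (ℕ × ℕ)) ≃ (Finset ℕ × Finset ℕ),
    (∀ n l, τ (Sum.inl ⟨n, l, ⟨0, hP n⟩⟩) ∈ L n) ∧
    (∀ n l t, t ≠ ⟨0, hP n⟩ → ∃ j : ℕ, τ (Sum.inl ⟨n, l, t⟩) = ({j}, ∅)) ∧
    (∀ q, ∃ j : ℕ, τ (Sum.inr q) = ({j}, ∅))

end Pool.Agent.R259.DO
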