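import Mathlib
import Pool.Agent.R259.DO.Defs

/-! Finite combinations of double Walsh functions. -/

set_option autoImplicit false

namespace Pool.Agent.R259.DO

open MeasureTheory Set Filter Topology

abbrev G := Finset ℕ × Finset ℕ

/-- evaluation of a finite combination -/
noncomputable def ev (v : G →₀ ℝ) (p : ℝ × ℝ) : ℝ := v.sum (fun u c => c * W u p)

/-- inner product of coefficient vectors -/
noncomputable def ip (v w : G →₀ ℝ) : ℝ := v.sum (fun u c => c * w u)

theorem ev_eq_sum (v : G →₀ ℝ) (s : Finset G) (h : v.support ⊆ s) (p : ℝ × ℝ) :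
    ev v p = ∑ u ∈ s, v u * W u p := by
  unfold ev
  exact Finsupp.sum_of_support_subset v h _ (fun u _ => by simp)

theorem ip_eq_sum (v w : G →₀ ℝ) (s : Finset G) (h : v.support ⊆ s) :
    ip v w = ∑ u ∈ s, v u * w u := by
  unfold ip
  exact Finsupp.sum_of_support_subset v h _ (fun u _ => by simp)

theorem ev_add (v w : G →₀ ℝ) (p : ℝ × ℝ) : ev (v + w) p = ev v p + ev w p := by
  unfold ev
  exact Finsupp.sum_add_index' (fun u => by simp) (fun u a b => by ring)

theorem ev_smul (c : ℝ) (v : G →₀ ℝ) (p : ℝ × ℝ) : ev (c • v) p = c * ev v p := by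
  rw [ev_eq_sum (c • v) v.support Finsupp.support_smul, ev_eq_sum v v.support subset_rfl,
    Finset.mul_sum]
  refine Finset.sum_congr rfl (fun u _ => ?_)
  simp [mul_assoc]

theorem ev_single (u : G) (c : ℝ) (p : ℝ × ℝ) : ev (Finsupp.single u c) p = c * W u p := by
  unfold ev
  simp

theorem ev_zero (p : ℝ × ℝ) : ev 0 p = 0 := by simp [ev]

theorem ev_sum {ι : Type*} (s : Finset ι) (f : ι → G →₀ ℝ) (p : ℝ × ℝ) :
    ev (∑ i ∈ s, f i) p = ∑ i ∈ s, ev (f i) p := by
  classical
  induction s using Finset.induction_on with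
  | empty => simp [ev_zero]
  | insert a s ha ih => rw [Finset.sum_insert ha, Finset.sum_insert ha, ev_add, ih]

theorem ip_add_left (v v' w : G →₀ ℝ) : ip (v + v') w = ip v w + ip v' w := by
  unfold ip
  exact Finsupp.sum_add_index' (fun u => by simp) (fun u a b => by ring)

theorem ip_smul_left (c : ℝ) (v w : G →₀ ℝ) : ip (c • v) w = c * ip v w := by
  rw [ip_eq_sum (c • v) w v.support Finsupp.support_smul, ip_eq_sum v w v.support subset_rfl,
    Finset.mul_sum]
  refine Finset.sum_congr rfl (fun u _ => ?_)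
  simp [mul_assoc]

theorem ip_comm (v w : G →₀ ℝ) : ip v w = ip w v := by
  classical
  rw [ip_eq_sum v w (v.support ∪ w.support) Finset.subset_union_left,
    ip_eq_sum w v (v.support ∪ w.support) Finset.subset_union_right]
  exact Finset.sum_congr rfl (fun u _ => mul_comm _ _)

theorem ip_single (u : G) (c : ℝ) (w : G →₀ ℝ) : ip (Finsupp.single u c) w = c * w u := by
  unfold ip
  simp

theorem ip_sum_left {ι : Type*} (s : Finset ι) (f : ι → G →₀ ℝ) (w : G →₀ ℝ) :
    ip (∑ i ∈ s, f i) w = ∑ i ∈ s, ip (f i) w := by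
  classical
  induction s using Finset.induction_on with
  | empty => simp [ip]
  | insert a s ha ih => rw [Finset.sum_insert ha, Finset.sum_insert ha, ip_add_left, ih]

theorem ip_sum_right {ι : Type*} (s : Finset ι) (f : ι → G →₀ ℝ) (w : G →₀ ℝ) :
    ip w (∑ i ∈ s, f i) = ∑ i ∈ s, ip w (f i) := by
  rw [ip_comm, ip_sum_left]
  exact Finset.sum_congr rfl (fun i _ => ip_comm _ _)

instance : IsFiniteMeasure sq := by
  unfold sq
  refine ⟨?_⟩
  rw [Measure.restrict_apply_univ, Measure.volume_eq_prod, Measure.prod_prod]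
  simp

theorem measurable_ev (h1 : P1) (v : G →₀ ℝ) : Measurable (ev v) := by
  have : ev v = fun p => ∑ u ∈ v.support, v u * W u p := by
    ext p; exact ev_eq_sum v _ subset_rfl p
  rw [this]
  exact Finset.measurable_sum _ (fun u _ => (h1.1 u).const_mul _)

theorem abs_ev_le (h1 : P1) (v : G →₀ ℝ) (p : ℝ × ℝ) : |ev v p| ≤ ∑ u ∈ v.support, |v u| := by
  rw [ev_eq_sum v _ subset_rfl p]
  refine (Finset.abs_sum_le_sum_abs _ _).trans (Finset.sum_le_sum (fun u _ => ?_))
  rw [abs_mul, h1.2.1 u p, mul_one]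

theorem integrable_of_bdd {f : ℝ × ℝ → ℝ} (hf : Measurable f) {B : ℝ} (hB : ∀ p, |f p| ≤ B) :
    Integrable f sq :=
  Integrable.of_bound hf.aestronglyMeasurable B (Filter.Eventually.of_forall hB)

theorem integral_ev_mul_ev (h1 : P1) (v w : G →₀ ℝ) : ∫ p, ev v p * ev w p ∂sq = ip v w := by
  classical
  have e : ∀ p, ev v p * ev w p
      = ∑ u ∈ v.support, ∑ u' ∈ w.support, (v u * w u') * (W u p * W u' p) := by
    intro p
    rw [ev_eq_sum v _ subset_rfl p, ev_eq_sum w _ subset_rfl p, Finset.sum_mul_sum]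
    refine Finset.sum_congr rfl (fun u _ => Finset.sum_congr rfl (fun u' _ => ?_))
    ring
  have hint : ∀ u u', Integrable (fun p => (v u * w u') * (W u p * W u' p)) sq := by
    intro u u'
    apply Integrable.const_mul
    refine integrable_of_bdd ((h1.1 u).mul (h1.1 u')) (B := 1) (fun p => ?_)
    rw [abs_mul, h1.2.1, h1.2.1, mul_one]
  simp_rw [e]
  rw [integral_finsetSum _ (fun u _ => integrable_finsetSum _ (fun u' _ => hint u u'))]
  rw [ip_eq_sum v w v.support subset_rfl]
  refine Finset.sum_congr rfl (fun u _ => ?_)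
  rw [integral_finsetSum _ (fun u' _ => hint u u')]
  simp_rw [integral_const_mul, h1.2.2]
  simp only [mul_ite, mul_one, mul_zero]
  rw [Finset.sum_ite_eq]
  split_ifs with h
  · rfl
  · simp only [Finsupp.mem_support_iff, ne_eq, not_not] at h
    rw [h, mul_zero]

/-- Rademacher indices -/
def IsRad (u : G) : Prop := ∃ j : ℕ, u = ({j}, ∅)

theorem fourth (h1 : P1) (h2 : P2) (v : G →₀ ℝ) (hv : ∀ u, v u ≠ 0 → IsRad u) :
    ∫ p, (ev v p) ^ 4 ∂sq ≤ 3 * (ip v v) ^ 2 := by
  classical
  -- the finite set of indices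
  set s : Finset ℕ := v.support.image (fun u => if h : u.1.Nonempty then u.1.min' h else 0) with hs
  have hinj : Function.Injective (fun j : ℕ => (({j}, ∅) : G)) := by
    intro a b h
    simpa using h
  have hsub : v.support ⊆ s.map ⟨_, hinj⟩ := by
    intro u hu
    obtain ⟨j, rfl⟩ := hv u (by simpa using hu)
    rw [Finset.mem_map]
    refine ⟨j, ?_, rfl⟩
    rw [hs, Finset.mem_image]
    exact ⟨_, hu, by simp⟩
  have e1 : ∀ p, ev v p = ∑ a ∈ s, v ({a}, ∅) * W ({a}, ∅) p := by
    intro p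
    rw [ev_eq_sum v _ hsub p, Finset.sum_map]
    rfl
  have e2 : ip v v = ∑ a ∈ s, (v ({a}, ∅)) ^ 2 := by
    rw [ip_eq_sum v v _ hsub, Finset.sum_map]
    exact Finset.sum_congr rfl (fun a _ => (pow_two _).symm)
  simp_rw [e1]
  rw [e2]
  exact h2 s (fun a => v ({a}, ∅))

end Pool.Agent.R259.DO
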