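import Mathlib
import Pool.Agent.R259.DO.A1

/-! The system: construction data, orthonormality, boundedness, completeness. -/

set_option autoImplicit false

namespace Pool.Agent.R259.DO

open MeasureTheory Set Filter Topology

/-- size of level `n` -/
noncomputable def cc (n : ℕ) : ℕ := (L n).card

/-- number of slices of level `n` -/
noncomputable def PP (n : ℕ) : ℕ := 2 ^ cc n

theorem PP_pos (n : ℕ) : 0 < PP n := by unfold PP; positivity

theorem cc_le_PP (n : ℕ) : cc n ≤ PP n := Nat.lt_two_pow_self.le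

theorem cc_pos (n : ℕ) : 0 < cc n := by
  unfold cc
  rw [Finset.card_pos]
  cases n with
  | zero => exact ⟨(∅, ∅), by simp [L, cube]⟩
  | succ n =>
    refine ⟨(∅, {n}), ?_⟩
    simp [L, cube]

/-- the data of the construction -/
structure Data where
  H : ∀ n, Fin (PP n) → Fin (PP n) → ℝ
  rows : ∀ n s s', ∑ t, H n s t * H n s' t = if s = s' then 1 else 0
  cols : ∀ n t t', ∑ s, H n s t * H n s t' = if t = t' then 1 else 0
  first : ∀ n s, H n s ⟨0, PP_pos n⟩ = (√(PP n))⁻¹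
  rowb : ∀ n s, ∑ t, |H n s t| ≤ 3
  τ : ((Σ n, Fin (cc n) × Fin (PP n)) ⊕ (ℕ × ℕ)) ≃ G
  τ0 : ∀ n l, τ (Sum.inl ⟨n, l, ⟨0, PP_pos n⟩⟩) ∈ L n
  τt : ∀ n l t, t ≠ ⟨0, PP_pos n⟩ → IsRad (τ (Sum.inl ⟨n, l, t⟩))
  τr : ∀ q, IsRad (τ (Sum.inr q))
  e1 : ℕ ≃ (Σ n, Fin (PP n))
  e1s : ∀ (X : (Σ n, Fin (PP n)) → ℝ) (k : ℕ), ∑ i ∈ Finset.range k, X (e1 i) =
    ∑ n ∈ Finset.range (e1 k).1, ∑ j, X ⟨n, j⟩ +
      ∑ j : Fin (PP (e1 k).1), if j < (e1 k).2 then X ⟨(e1 k).1, j⟩ else 0
  e2 : ℕ ≃ (Σ κ, Fin (cc (e1 κ).1))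
  e2s : ∀ (X : (Σ κ, Fin (cc (e1 κ).1)) → ℝ) (k : ℕ), ∑ i ∈ Finset.range k, X (e2 i) =
    ∑ n ∈ Finset.range (e2 k).1, ∑ j, X ⟨n, j⟩ +
      ∑ j : Fin (cc (e1 (e2 k).1).1), if j < (e2 k).2 then X ⟨(e2 k).1, j⟩ else 0

theorem exists_data (h5 : P5) (h7 : P7) (h8 : P8) : Nonempty Data := by
  choose H hH1 hH2 hH3 hH4 using h5
  obtain ⟨τ, ht1, ht2, ht3⟩ := h8 PP PP_pos
  obtain ⟨e1, he1⟩ := h7 PP PP_pos
  obtain ⟨e2, he2⟩ := h7 (fun κ => cc (e1 κ).1) (fun κ => cc_pos _)
  refine ⟨{ H := fun n => H (cc n)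
            rows := fun n => hH1 (cc n)
            cols := fun n => hH2 (cc n)
            first := ?_
            rowb := fun n => hH4 (cc n)
            τ := τ
            τ0 := ht1
            τt := ht2
            τr := ht3
            e1 := e1
            e1s := he1
            e2 := e2
            e2s := he2 }⟩
  intro n s
  have := hH3 (cc n) s
  have e : ((PP n : ℕ) : ℝ) = 2 ^ cc n := by unfold PP; push_cast; rfl
  rw [e]
  exact this

variable (D : Data)

/-- positions of the first row -/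
abbrev R := Σ n, Fin (PP n) × Fin (cc n)

/-- regrouping -/
def regroup : (Σ x : (Σ n, Fin (PP n)), Fin (cc x.1)) ≃ R where
  toFun := fun x => ⟨x.1.1, x.1.2, x.2⟩
  invFun := fun x => ⟨⟨x.1, x.2.1⟩, x.2.2⟩
  left_inv := by rintro ⟨⟨n, s⟩, l⟩; rfl
  right_inv := by rintro ⟨n, s, l⟩; rfl

/-- enumeration of the first row -/
noncomputable def Data.E (D : Data) : ℕ ≃ R :=
  D.e2.trans ((Equiv.sigmaCongrLeft (β := fun x : Σ n, Fin (PP n) => Fin (cc x.1)) D.e1).trans regroup)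

theorem Data.E_apply (k : ℕ) :
    D.E k = ⟨(D.e1 (D.e2 k).1).1, (D.e1 (D.e2 k).1).2, (D.e2 k).2⟩ := rfl

/-- first element of a block -/
def z0 (n : ℕ) : Fin (PP n) := ⟨0, PP_pos n⟩

/-- coefficient vectors of the functions in the first row -/
noncomputable def Data.v (D : Data) (r : R) : G →₀ ℝ :=
  ∑ t, Finsupp.single (D.τ (Sum.inl ⟨r.1, r.2.2, t⟩)) (D.H r.1 r.2.1 t)

/-- coefficient vectors of all functions of the system -/
noncomputable def Data.V (D : Data) : R ⊕ (ℕ × ℕ) → (G →₀ ℝ)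
  | Sum.inl r => D.v r
  | Sum.inr q => Finsupp.single (D.τ (Sum.inr q)) 1

theorem Data.v_apply_slot (n : ℕ) (s : Fin (PP n)) (l : Fin (cc n)) (x) :
    D.v ⟨n, s, l⟩ (D.τ x) = ∑ t, if x = Sum.inl ⟨n, l, t⟩ then D.H n s t else 0 := by
  classical
  unfold Data.v
  rw [Finsupp.finsetSum_apply]
  refine Finset.sum_congr rfl (fun t _ => ?_)
  rw [Finsupp.single_apply]
  by_cases h : x = Sum.inl ⟨n, l, t⟩
  · subst h; simp
  · rw [if_neg h, if_neg]
    intro h'
    exact h (D.τ.injective h').symm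

theorem Data.orth (j j' : R ⊕ (ℕ × ℕ)) : ip (D.V j) (D.V j') = if j = j' then 1 else 0 := by
  classical
  rcases j with ⟨n, s, l⟩ | q <;> rcases j' with ⟨n', s', l'⟩ | q'
  · change ip (D.v ⟨n, s, l⟩) (D.v ⟨n', s', l'⟩) = _
    have e : ip (D.v ⟨n, s, l⟩) (D.v ⟨n', s', l'⟩)
        = ∑ t, D.H n s t * D.v ⟨n', s', l'⟩ (D.τ (Sum.inl ⟨n, l, t⟩)) := by
      conv_lhs => rw [show D.v ⟨n, s, l⟩ = ∑ t, Finsupp.single (D.τ (Sum.inl ⟨n, l, t⟩)) (D.H n s t) from rfl]
      rw [ip_sum_left]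
      exact Finset.sum_congr rfl (fun t _ => ip_single _ _ _)
    rw [e]
    by_cases hn : n = n'
    · subst hn
      by_cases hl : l = l'
      · subst hl
        have e2 : ∀ t, D.v ⟨n, s', l⟩ (D.τ (Sum.inl ⟨n, l, t⟩)) = D.H n s' t := by
          intro t
          rw [D.v_apply_slot]
          simp [Prod.ext_iff]
        simp_rw [e2]
        rw [D.rows n s s']
        by_cases hs : s = s'
        · subst hs; simp
        · rw [if_neg hs, if_neg]
          intro h
          simp [Prod.ext_iff] at h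
          exact hs h
      · have e2 : ∀ t, D.v ⟨n, s', l'⟩ (D.τ (Sum.inl ⟨n, l, t⟩)) = 0 := by
          intro t
          rw [D.v_apply_slot]
          apply Finset.sum_eq_zero
          intro t' _
          rw [if_neg]
          intro h
          simp [Prod.ext_iff] at h
          exact hl h.1
        simp_rw [e2]
        rw [if_neg]
        · simp
        · intro h
          simp [Prod.ext_iff] at h
          exact hl h.2
    · have e2 : ∀ t, D.v ⟨n', s', l'⟩ (D.τ (Sum.inl ⟨n, l, t⟩)) = 0 := by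
        intro t
        rw [D.v_apply_slot]
        apply Finset.sum_eq_zero
        intro t' _
        rw [if_neg]
        intro h
        have := congrArg (fun x => match x with | Sum.inl y => Sigma.fst y | Sum.inr _ => 0) h
        exact hn this
      simp_rw [e2]
      rw [if_neg]
      · simp
      · intro h
        have := congrArg (fun x => match x with | Sum.inl y => Sigma.fst y | Sum.inr _ => 0) h
        exact hn this
  · change ip (D.v ⟨n, s, l⟩) (Finsupp.single (D.τ (Sum.inr q')) 1) = _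
    rw [ip_comm, ip_single, D.v_apply_slot]
    simp
  · change ip (Finsupp.single (D.τ (Sum.inr q)) 1) (D.v ⟨n', s', l'⟩) = _
    rw [ip_single, D.v_apply_slot]
    simp
  · change ip (Finsupp.single (D.τ (Sum.inr q)) 1) (Finsupp.single (D.τ (Sum.inr q')) 1) = _
    rw [ip_single, Finsupp.single_apply]
    simp [eq_comm]

theorem Data.ev_v (n : ℕ) (s : Fin (PP n)) (l : Fin (cc n)) (p : ℝ × ℝ) :
    ev (D.v ⟨n, s, l⟩) p = ∑ t, D.H n s t * W (D.τ (Sum.inl ⟨n, l, t⟩)) p := by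
  unfold Data.v
  rw [ev_sum]
  exact Finset.sum_congr rfl (fun t _ => ev_single _ _ _)

theorem Data.bdd (h1 : P1) (j : R ⊕ (ℕ × ℕ)) (p : ℝ × ℝ) : |ev (D.V j) p| ≤ 3 := by
  rcases j with ⟨n, s, l⟩ | q
  · change |ev (D.v ⟨n, s, l⟩) p| ≤ 3
    rw [D.ev_v]
    refine (Finset.abs_sum_le_sum_abs _ _).trans ?_
    refine le_trans (Finset.sum_le_sum (fun t _ => ?_)) (D.rowb n s)
    rw [abs_mul, h1.2.1, mul_one]
  · change |ev (Finsupp.single (D.τ (Sum.inr q)) 1) p| ≤ 3
    rw [ev_single, abs_mul, h1.2.1]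
    norm_num

theorem Data.complete (h1 : P1) (h3 : P3) {f : ℝ × ℝ → ℝ} (hf : MemLp f 2 sq)
    (h : ∀ j, ∫ p, f p * ev (D.V j) p ∂sq = 0) : f =ᵐ[sq] 0 := by
  classical
  refine h3 f hf (fun u => ?_)
  have hfi : Integrable f sq := hf.integrable (by norm_num)
  have hint : ∀ u, Integrable (fun p => f p * W u p) sq := by
    intro u
    refine hfi.mul_bdd (c := 1) (h1.1 u).aestronglyMeasurable ?_
    exact Filter.Eventually.of_forall (fun p => by rw [Real.norm_eq_abs, h1.2.1])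
  obtain ⟨x, rfl⟩ := D.τ.surjective u
  rcases x with ⟨n, l, t⟩ | q
  · have hs : ∀ s, ∑ t', D.H n s t' * ∫ p, f p * W (D.τ (Sum.inl ⟨n, l, t'⟩)) p ∂sq = 0 := by
      intro s
      have := h (Sum.inl ⟨n, s, l⟩)
      change ∫ p, f p * ev (D.v ⟨n, s, l⟩) p ∂sq = 0 at this
      rw [← this]
      simp_rw [D.ev_v, Finset.mul_sum]
      rw [integral_finsetSum]
      · refine Finset.sum_congr rfl (fun t' _ => ?_)
        rw [← integral_const_mul]
        congr 1
        ext p; ring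
      · intro t' _
        have := (hint (D.τ (Sum.inl ⟨n, l, t'⟩))).const_mul (D.H n s t')
        refine this.congr (Filter.Eventually.of_forall (fun p => ?_))
        ring
    have e : ∫ p, f p * W (D.τ (Sum.inl ⟨n, l, t⟩)) p ∂sq
        = ∑ s, D.H n s t * ∑ t', D.H n s t' * ∫ p, f p * W (D.τ (Sum.inl ⟨n, l, t'⟩)) p ∂sq := by
      simp_rw [Finset.mul_sum]
      rw [Finset.sum_comm]
      have : ∀ t', ∑ s, D.H n s t * (D.H n s t' * ∫ p, f p * W (D.τ (Sum.inl ⟨n, l, t'⟩)) p ∂sq)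
          = (if t = t' then 1 else 0) * ∫ p, f p * W (D.τ (Sum.inl ⟨n, l, t'⟩)) p ∂sq := by
        intro t'
        rw [← D.cols n t t', Finset.sum_mul]
        exact Finset.sum_congr rfl (fun s _ => by ring)
      simp_rw [this]
      simp
    rw [e]
    apply Finset.sum_eq_zero
    intro s _
    rw [hs s, mul_zero]
  · have := h (Sum.inr q)
    change ∫ p, f p * ev (Finsupp.single (D.τ (Sum.inr q)) 1) p ∂sq = 0 at this
    simpa [ev_single] using this

end Pool.Agent.R259.DO
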