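import Mathlib
import Pool.Agent.R259.DO.A2

/-! Convergence of the two parts. -/

set_option autoImplicit false

namespace Pool.Agent.R259.DO

open MeasureTheory Set Filter Topology

theorem not_isRad_of_mem_L {n : ℕ} {u : G} (hu : u ∈ L n) : ¬ IsRad u := by
  rintro ⟨j, rfl⟩
  cases n with
  | zero => simp [L, cube] at hu
  | succ n =>
    simp only [L, cube, Finset.mem_erase, Finset.mem_sdiff, Finset.mem_product,
      Finset.mem_powerset, Finset.singleton_subset_iff, Finset.mem_range,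
      Finset.empty_subset, and_true] at hu
    obtain ⟨h1, h2, h3⟩ := hu
    have : j = n := by omega
    subst this
    exact h1 rfl

theorem exists_subset_cube (S : Finset G) : ∃ N, S ⊆ cube N := by
  classical
  refine ⟨(S.biUnion (fun u => u.1 ∪ u.2)).sup id + 1, ?_⟩
  intro u hu
  simp only [cube, Finset.mem_product, Finset.mem_powerset]
  have key : ∀ a ∈ u.1 ∪ u.2, a < (S.biUnion (fun u => u.1 ∪ u.2)).sup id + 1 := by
    intro a ha
    have h1 : a ∈ S.biUnion (fun u => u.1 ∪ u.2) := Finset.mem_biUnion.mpr ⟨u, hu, ha⟩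
    have h2 : id a ≤ (S.biUnion (fun u => u.1 ∪ u.2)).sup id := Finset.le_sup h1
    simp only [id] at h2
    omega
  constructor
  · intro a ha
    exact Finset.mem_range.mpr (key a (Finset.mem_union_left _ ha))
  · intro a ha
    exact Finset.mem_range.mpr (key a (Finset.mem_union_right _ ha))

variable (D : Data)

/-- the non-Rademacher elements of level `n` -/
noncomputable def Data.u (D : Data) (n : ℕ) (l : Fin (cc n)) : G := D.τ (Sum.inl ⟨n, l, z0 n⟩)

theorem Data.u_inj (n : ℕ) : Function.Injective (D.u n) := by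
  intro l l' h
  have := D.τ.injective h
  simp [Prod.ext_iff] at this
  exact this

theorem Data.image_u (n : ℕ) : Finset.univ.image (D.u n) = L n := by
  classical
  apply Finset.eq_of_subset_of_card_le
  · intro x hx
    obtain ⟨l, -, rfl⟩ := Finset.mem_image.mp hx
    exact D.τ0 n l
  · rw [Finset.card_image_of_injective _ (D.u_inj n), Finset.card_univ, Fintype.card_fin]
    exact le_rfl

theorem Data.sum_cube (F : G → ℝ) (hF : ∀ u, IsRad u → F u = 0) (N : ℕ) :
    ∑ u ∈ cube N, F u = ∑ n ∈ Finset.range (N + 1), ∑ l, F (D.u n l) := by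
  classical
  have hL : ∀ n, ∑ l, F (D.u n l) = ∑ u ∈ L n, F u := by
    intro n
    rw [← D.image_u n, Finset.sum_image (fun a _ b _ h => D.u_inj n h)]
  simp_rw [hL]
  induction N with
  | zero => simp [L]
  | succ N ih =>
    rw [Finset.sum_range_succ, ← ih]
    have hsub : cube N ⊆ cube (N + 1) := by
      intro u hu
      simp only [cube, Finset.mem_product, Finset.mem_powerset] at hu ⊢
      exact ⟨hu.1.trans (Finset.range_mono (Nat.le_succ N)), hu.2.trans (Finset.range_mono (Nat.le_succ N))⟩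
    rw [← Finset.sum_sdiff hsub, add_comm]
    congr 1
    change _ = ∑ u ∈ (cube (N + 1) \ cube N).erase ({N}, ∅), F u
    rw [Finset.sum_erase _ (hF _ ⟨N, rfl⟩)]

theorem tendsto_fst (D : Data) : Tendsto (fun k => (D.E k).1) atTop atTop := by
  rw [tendsto_atTop]
  intro N
  have hfin : {k : ℕ | (D.E k).1 < N}.Finite := by
    have h1 : {r : R | r.1 < N}.Finite := by
      apply Set.Finite.subset (Finset.finite_toSet (Finset.sigma (Finset.range N)
        (fun n => (Finset.univ : Finset (Fin (PP n) × Fin (cc n))))))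
      intro r hr
      simp only [Finset.coe_sigma, Set.mem_sigma_iff, Finset.coe_range, Set.mem_Iio,
        Finset.coe_univ, Set.mem_univ, and_true]
      exact hr
    exact h1.preimage D.E.injective.injOn
  have := hfin.compl_mem_cofinite
  rw [Nat.cofinite_eq_atTop] at this
  filter_upwards [this] with k hk
  simp only [Set.mem_compl_iff, Set.mem_ofPred_eq, not_lt] at hk
  exact hk

/-- deterministic convergence lemma for the first row -/
theorem row_conv (D : Data) (α : R → ℝ) (w : ∀ n, Fin (cc n) → ℝ) (hw : ∀ n l, |w n l| = 1)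
    (hc : Summable (fun n => ∑ s, ∑ l, α ⟨n, s, l⟩ ^ 2))
    (hG : Summable (fun n => ∑ s, (∑ l, α ⟨n, s, l⟩ * w n l) ^ 2))
    (hg : ∃ x, Tendsto (fun N => ∑ n ∈ Finset.range N, ∑ l, ((√(PP n))⁻¹ * ∑ s, α ⟨n, s, l⟩) * w n l)
      atTop (𝓝 x)) :
    ∃ x, Tendsto (fun K => ∑ k ∈ Finset.range K,
      α (D.E k) * ((√(PP (D.E k).1))⁻¹ * w (D.E k).1 (D.E k).2.2)) atTop (𝓝 x) := by
  obtain ⟨x0, hx0⟩ := hg
  refine ⟨x0, ?_⟩
  set f : R → ℝ := fun r => α r * ((√(PP r.1))⁻¹ * w r.1 r.2.2) with hf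
  set Y : (Σ n, Fin (PP n)) → ℝ := fun y => ∑ l, f ⟨y.1, y.2, l⟩ with hY
  -- formula for the partial sums
  have hform : ∀ K, ∑ k ∈ Finset.range K, f (D.E k) =
      ∑ n ∈ Finset.range (D.E K).1, ∑ l, ((√(PP n))⁻¹ * ∑ s, α ⟨n, s, l⟩) * w n l
      + ((∑ s : Fin (PP (D.E K).1), if s < (D.E K).2.1 then Y ⟨(D.E K).1, s⟩ else 0)
      + ∑ l : Fin (cc (D.E K).1), if l < (D.E K).2.2 then f ⟨(D.E K).1, (D.E K).2.1, l⟩ else 0) := by
    intro K
    have h2 := D.e2s (fun x => f ⟨(D.e1 x.1).1, (D.e1 x.1).2, x.2⟩) K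
    have h1 := D.e1s Y (D.e2 K).1
    have h3 : ∑ k ∈ Finset.range K, f (D.E k)
        = ∑ i ∈ Finset.range K, f ⟨(D.e1 (D.e2 i).1).1, (D.e1 (D.e2 i).1).2, (D.e2 i).2⟩ := rfl
    rw [h3, h2]
    have h4 : ∑ n ∈ Finset.range (D.e2 K).1, ∑ j, f ⟨(D.e1 n).1, (D.e1 n).2, j⟩
        = ∑ i ∈ Finset.range (D.e2 K).1, Y (D.e1 i) := rfl
    rw [h4, h1, ← add_assoc]
    congr 2
    refine Finset.sum_congr rfl (fun n _ => ?_)
    change ∑ s, ∑ l, f ⟨n, s, l⟩ = _
    rw [Finset.sum_comm]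
    refine Finset.sum_congr rfl (fun l _ => ?_)
    rw [Finset.mul_sum, Finset.sum_mul]
    refine Finset.sum_congr rfl (fun s _ => ?_)
    simp only [hf]; ring
  -- bounds
  have hPP : ∀ n, (0:ℝ) < PP n := fun n => by exact_mod_cast PP_pos n
  have hb1 : ∀ n (s0 : Fin (PP n)), |∑ s : Fin (PP n), if s < s0 then Y ⟨n, s⟩ else 0|
      ≤ √(∑ s, (∑ l, α ⟨n, s, l⟩ * w n l) ^ 2) := by
    intro n s0
    apply Real.le_sqrt_of_sq_le
    rw [sq_abs]
    have h1 : (∑ s : Fin (PP n), if s < s0 then Y ⟨n, s⟩ else 0) ^ 2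
        ≤ (Finset.univ : Finset (Fin (PP n))).card * ∑ s : Fin (PP n), (if s < s0 then Y ⟨n, s⟩ else 0) ^ 2 :=
      sq_sum_le_card_mul_sum_sq
    refine h1.trans ?_
    rw [Finset.card_univ, Fintype.card_fin, Finset.mul_sum]
    refine Finset.sum_le_sum (fun s _ => ?_)
    have hYs : Y ⟨n, s⟩ = (√(PP n))⁻¹ * ∑ l, α ⟨n, s, l⟩ * w n l := by
      simp only [hY, hf, Finset.mul_sum]
      exact Finset.sum_congr rfl (fun l _ => by ring)
    have hsq : (PP n : ℝ) * ((√(PP n))⁻¹ * ∑ l, α ⟨n, s, l⟩ * w n l) ^ 2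
        = (∑ l, α ⟨n, s, l⟩ * w n l) ^ 2 := by
      rw [mul_pow, inv_pow, Real.sq_sqrt (hPP n).le, ← mul_assoc, mul_inv_cancel₀ (hPP n).ne', one_mul]
    split_ifs
    · rw [hYs, hsq]
    · simp only [ne_eq, OfNat.ofNat_ne_zero, not_false_eq_true, zero_pow, mul_zero]
      positivity
  have hb2 : ∀ n (s : Fin (PP n)) (l0 : Fin (cc n)),
      |∑ l : Fin (cc n), if l < l0 then f ⟨n, s, l⟩ else 0| ≤ √(∑ s, ∑ l, α ⟨n, s, l⟩ ^ 2) := by
    intro n s l0
    apply Real.le_sqrt_of_sq_le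
    rw [sq_abs]
    have h1 : (∑ l : Fin (cc n), if l < l0 then f ⟨n, s, l⟩ else 0) ^ 2
        ≤ (Finset.univ : Finset (Fin (cc n))).card * ∑ l : Fin (cc n), (if l < l0 then f ⟨n, s, l⟩ else 0) ^ 2 :=
      sq_sum_le_card_mul_sum_sq
    refine h1.trans ?_
    rw [Finset.card_univ, Fintype.card_fin, Finset.mul_sum]
    have h2 : ∑ l, α ⟨n, s, l⟩ ^ 2 ≤ ∑ s, ∑ l, α ⟨n, s, l⟩ ^ 2 :=
      Finset.single_le_sum (f := fun s => ∑ l, α ⟨n, s, l⟩ ^ 2)
        (fun s _ => Finset.sum_nonneg (fun l _ => sq_nonneg _)) (Finset.mem_univ s)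
    refine le_trans (Finset.sum_le_sum (fun l _ => ?_)) h2
    split_ifs
    · have e : f ⟨n, s, l⟩ ^ 2 = α ⟨n, s, l⟩ ^ 2 * (PP n : ℝ)⁻¹ := by
        simp only [hf]
        rw [mul_pow, mul_pow, inv_pow, Real.sq_sqrt (hPP n).le, ← sq_abs (w n l), hw]
        ring
      rw [e]
      have h3 : (cc n : ℝ) ≤ PP n := by exact_mod_cast cc_le_PP n
      have h4 : (cc n : ℝ) * (PP n : ℝ)⁻¹ ≤ 1 := by
        rw [← div_eq_mul_inv, div_le_one (hPP n)]; exact h3
      nlinarith [sq_nonneg (α ⟨n, s, l⟩)]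
    · simp only [ne_eq, OfNat.ofNat_ne_zero, not_false_eq_true, zero_pow, mul_zero]
      positivity
  have hfst := tendsto_fst D
  have hlim1 : Tendsto (fun n => √(∑ s, (∑ l, α ⟨n, s, l⟩ * w n l) ^ 2) + √(∑ s, ∑ l, α ⟨n, s, l⟩ ^ 2))
      atTop (𝓝 0) := by
    have a := (Real.continuous_sqrt.tendsto 0).comp hG.tendsto_atTop_zero
    have b := (Real.continuous_sqrt.tendsto 0).comp hc.tendsto_atTop_zero
    simp only [Real.sqrt_zero] at a b
    simpa using a.add b
  have hlim2 := hlim1.comp hfst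
  have hx1 := hx0.comp hfst
  have herr : Tendsto (fun K => (∑ s : Fin (PP (D.E K).1), if s < (D.E K).2.1 then Y ⟨(D.E K).1, s⟩ else 0)
      + ∑ l : Fin (cc (D.E K).1), if l < (D.E K).2.2 then f ⟨(D.E K).1, (D.E K).2.1, l⟩ else 0)
      atTop (𝓝 0) := by
    refine squeeze_zero_norm (fun K => ?_) hlim2
    rw [Real.norm_eq_abs]
    refine (abs_add_le _ _).trans ?_
    exact add_le_add (hb1 _ _) (hb2 _ _ _)
  have := hx1.add herr
  rw [add_zero] at this
  refine this.congr (fun K => ?_)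
  rw [hform K]
  rfl

end Pool.Agent.R259.DO
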