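import Mathlib
import Pool.Agent.R259.DO.A3

/-! Assembly. -/

set_option autoImplicit false

namespace Pool.Agent.R259.DO

open MeasureTheory Set Filter Topology

variable (D : Data)

/-- position in the array ↦ index of the function -/
noncomputable def Data.idx (D : Data) : ℕ × ℕ → R ⊕ (ℕ × ℕ)
  | (0, k) => Sum.inl (D.E k)
  | (i + 1, k) => Sum.inr (i, k)

theorem Data.idx_inj : Function.Injective D.idx := by
  rintro ⟨i, k⟩ ⟨i', k'⟩ h
  cases i <;> cases i' <;> simp [Data.idx] at h
  · rw [h]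
  · rw [h.1, h.2]

theorem Data.idx_surj : Function.Surjective D.idx := by
  rintro (r | ⟨i, k⟩)
  · exact ⟨(0, D.E.symm r), by simp [Data.idx]⟩
  · exact ⟨(i + 1, k), rfl⟩

/-- the double orthonormal system -/
noncomputable def Data.phi (D : Data) (i k : ℕ) : ℝ × ℝ → ℝ := ev (D.V (D.idx (i, k)))

open Classical in
/-- Rademacher part -/
noncomputable def Data.X (D : Data) (i k : ℕ) : ℝ × ℝ → ℝ :=
  ev ((D.V (D.idx (i, k))).filter IsRad)

open Classical in
theorem Data.X_fourth (h1 : P1) (h2 : P2) (Q : Finset (ℕ × ℕ)) (a : ℕ × ℕ → ℝ) :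
    ∫ ω, (∑ q ∈ Q, a q * D.X q.1 q.2 ω) ^ 4 ∂sq ≤ 3 * (∑ q ∈ Q, a q ^ 2) ^ 2 := by
  set v : G →₀ ℝ := ∑ q ∈ Q, a q • D.V (D.idx q) with hv
  have e1 : ∀ ω, ∑ q ∈ Q, a q * D.X q.1 q.2 ω = ev (v.filter IsRad) ω := by
    intro ω
    have : v.filter IsRad = ∑ q ∈ Q, a q • (D.V (D.idx q)).filter IsRad := by
      rw [hv]
      ext u
      simp only [Finsupp.filter_apply, Finsupp.finsetSum_apply, Finsupp.smul_apply, smul_eq_mul]
      split_ifs <;> simp
    rw [this, ev_sum]
    refine Finset.sum_congr rfl (fun q _ => ?_)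
    rw [ev_smul]
    rfl
  simp_rw [e1]
  have h4 := fourth h1 h2 (v.filter IsRad) (fun u hu => by
    by_contra h
    exact hu (Finsupp.filter_apply_neg _ _ h))
  refine h4.trans ?_
  have hvv : ip v v = ∑ q ∈ Q, a q ^ 2 := by
    rw [hv, ip_sum_left]
    refine Finset.sum_congr rfl (fun q hq => ?_)
    rw [ip_smul_left, ip_sum_right]
    have : ∀ q' ∈ Q, ip (D.V (D.idx q)) (a q' • D.V (D.idx q')) = if q = q' then a q' else 0 := by
      intro q' _
      rw [ip_comm, ip_smul_left, ip_comm, D.orth]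
      by_cases h : q = q'
      · subst h; simp
      · rw [if_neg h, if_neg (fun h' => h (D.idx_inj h')), mul_zero]
    rw [Finset.sum_congr rfl this, Finset.sum_ite_eq, if_pos hq]
    ring
  have hff : ip (v.filter IsRad) (v.filter IsRad) ≤ ip v v := by
    rw [ip_eq_sum (v.filter IsRad) _ v.support (by
      intro u hu
      rw [Finsupp.mem_support_iff] at hu ⊢
      intro h
      apply hu
      by_cases hr : IsRad u
      · rw [Finsupp.filter_apply_pos _ _ hr, h]
      · rw [Finsupp.filter_apply_neg _ _ hr]),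
      ip_eq_sum v v v.support subset_rfl]
    refine Finset.sum_le_sum (fun u _ => ?_)
    by_cases hr : IsRad u
    · rw [Finsupp.filter_apply_pos _ _ hr]
    · rw [Finsupp.filter_apply_neg _ _ hr]
      simp only [mul_zero]
      exact mul_self_nonneg _
  have h0 : 0 ≤ ip (v.filter IsRad) (v.filter IsRad) := by
    rw [ip_eq_sum _ _ _ subset_rfl]
    exact Finset.sum_nonneg (fun u _ => mul_self_nonneg _)
  rw [← hvv]
  gcongr

open Classical in
theorem Data.phi_succ (i k : ℕ) (p : ℝ × ℝ) : D.phi (i + 1) k p = D.X (i + 1) k p := by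
  unfold Data.phi Data.X
  have : (D.V (D.idx (i + 1, k))).filter IsRad = D.V (D.idx (i + 1, k)) := by
    change (Finsupp.single (D.τ (Sum.inr (i, k))) (1:ℝ)).filter IsRad = _
    rw [Finsupp.filter_single_of_pos _ (D.τr (i, k))]
    rfl
  rw [this]

open Classical in
theorem Data.phi_zero (k : ℕ) (p : ℝ × ℝ) : D.phi 0 k p = D.X 0 k p +
    (√(PP (D.E k).1))⁻¹ * W (D.u (D.E k).1 (D.E k).2.2) p := by
  unfold Data.phi Data.X
  change ev (D.v (D.E k)) p = ev ((D.v (D.E k)).filter IsRad) p + _
  generalize D.E k = r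
  rcases r with ⟨n, s, l⟩
  have : D.v ⟨n, s, l⟩ = (D.v ⟨n, s, l⟩).filter IsRad
      + Finsupp.single (D.u n l) (√(PP n))⁻¹ := by
    ext w
    obtain ⟨x, rfl⟩ := D.τ.surjective w
    by_cases hr : IsRad (D.τ x)
    · rw [Finsupp.add_apply, Finsupp.filter_apply_pos _ _ hr, Finsupp.single_apply, if_neg, add_zero]
      intro h
      rw [← h] at hr
      exact not_isRad_of_mem_L (D.τ0 n l) hr
    · rw [Finsupp.add_apply, Finsupp.filter_apply_neg _ _ hr, zero_add, D.v_apply_slot,
        Finsupp.single_apply]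
      have h0 : D.u n l = D.τ (Sum.inl ⟨n, l, z0 n⟩) := rfl
      rw [h0]
      by_cases hx : x = Sum.inl ⟨n, l, z0 n⟩
      · subst hx
        rw [if_pos rfl]
        rw [Finset.sum_eq_single (z0 n)]
        · rw [if_pos rfl]
          exact D.first n s
        · intro t _ ht
          rw [if_neg]
          intro h
          simp [Prod.ext_iff] at h
          exact ht h.symm
        · simp
      · rw [if_neg (fun h => hx (D.τ.injective h).symm)]
        apply Finset.sum_eq_zero
        intro t _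
        rw [if_neg]
        rintro rfl
        by_cases ht : t = z0 n
        · subst ht; exact hx rfl
        · exact hr (D.τt n l t ht)
  conv_lhs => rw [this]
  rw [ev_add, ev_single]

end Pool.Agent.R259.DO
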