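import Mathlib
import Pool.Agent.R259.DO.A4

/-! Final assembly. -/

set_option autoImplicit false

namespace Pool.Agent.R259.DO

open MeasureTheory Set Filter Topology

variable (D : Data)

/-- coefficients `β n l` placed at the non-Rademacher Walsh functions -/
noncomputable def Data.dd (D : Data) (β : ∀ n, Fin (cc n) → ℝ) (u : G) : ℝ :=
  match D.τ.symm u with
  | Sum.inl ⟨n, l, t⟩ => if t = z0 n then β n l else 0
  | Sum.inr _ => 0

theorem Data.dd_u (β : ∀ n, Fin (cc n) → ℝ) (n : ℕ) (l : Fin (cc n)) :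
    D.dd β (D.u n l) = β n l := by
  unfold Data.dd Data.u
  simp

theorem Data.dd_rad (β : ∀ n, Fin (cc n) → ℝ) (u : G) (hu : IsRad u) : D.dd β u = 0 := by
  obtain ⟨x, rfl⟩ := D.τ.surjective u
  unfold Data.dd
  rw [Equiv.symm_apply_apply]
  rcases x with ⟨n, l, t⟩ | q
  · simp only
    rw [if_neg]
    intro ht
    subst ht
    exact not_isRad_of_mem_L (D.τ0 n l) hu
  · rfl

theorem Data.summable_dd (β : ∀ n, Fin (cc n) → ℝ) (hβ : Summable (fun n => ∑ l, β n l ^ 2)) :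
    Summable (fun u => D.dd β u ^ 2) := by
  refine summable_of_sum_le (c := ∑' n, ∑ l, β n l ^ 2) (fun u => sq_nonneg _) (fun S => ?_)
  obtain ⟨N, hN⟩ := exists_subset_cube S
  calc ∑ u ∈ S, D.dd β u ^ 2 ≤ ∑ u ∈ cube N, D.dd β u ^ 2 :=
        Finset.sum_le_sum_of_subset_of_nonneg hN (fun _ _ _ => sq_nonneg _)
    _ = ∑ n ∈ Finset.range (N + 1), ∑ l, D.dd β (D.u n l) ^ 2 :=
        D.sum_cube (fun u => D.dd β u ^ 2) (fun u hu => by simp [D.dd_rad β u hu]) N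
    _ = ∑ n ∈ Finset.range (N + 1), ∑ l, β n l ^ 2 := by simp_rw [D.dd_u]
    _ ≤ ∑' n, ∑ l, β n l ^ 2 :=
        hβ.sum_le_tsum _ (fun n _ => Finset.sum_nonneg (fun l _ => sq_nonneg _))

theorem Data.ae_g (h4 : P4) (β : ∀ n, Fin (cc n) → ℝ) (hβ : Summable (fun n => ∑ l, β n l ^ 2)) :
    ∀ᵐ p ∂sq, ∃ x, Tendsto (fun N => ∑ n ∈ Finset.range N, ∑ l, β n l * W (D.u n l) p)
      atTop (𝓝 x) := by
  filter_upwards [h4 (D.dd β) (D.summable_dd β hβ)] with p hp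
  obtain ⟨x, hx⟩ := hp
  refine ⟨x, ?_⟩
  rw [← tendsto_add_atTop_iff_nat 1]
  refine hx.congr (fun N => ?_)
  rw [D.sum_cube (fun u => D.dd β u * W u p) (fun u hu => by simp [D.dd_rad β u hu]) N]
  simp_rw [D.dd_u]

theorem Data.integral_sq (h1 : P1) (n : ℕ) (c : Fin (cc n) → ℝ) :
    Measurable (fun p => ∑ l, c l * W (D.u n l) p) ∧
    Integrable (fun p => (∑ l, c l * W (D.u n l) p) ^ 2) sq ∧
    ∫ p, (∑ l, c l * W (D.u n l) p) ^ 2 ∂sq = ∑ l, c l ^ 2 := by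
  classical
  set v : G →₀ ℝ := ∑ l, Finsupp.single (D.u n l) (c l) with hv
  have e : ∀ p, ∑ l, c l * W (D.u n l) p = ev v p := by
    intro p
    rw [hv, ev_sum]
    exact Finset.sum_congr rfl (fun l _ => (ev_single _ _ _).symm)
  have hvl : ∀ l, v (D.u n l) = c l := by
    intro l
    rw [hv, Finsupp.finsetSum_apply, Finset.sum_eq_single l]
    · simp
    · intro l' _ hl
      rw [Finsupp.single_apply, if_neg (fun h => hl (D.u_inj n h))]
    · simp
  have e2 : ip v v = ∑ l, c l ^ 2 := by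
    conv_lhs => rw [hv]
    rw [ip_sum_left]
    refine Finset.sum_congr rfl (fun l _ => ?_)
    rw [ip_single, ← hv, hvl]
    ring
  simp_rw [e]
  refine ⟨measurable_ev h1 v, ?_, ?_⟩
  · refine integrable_of_bdd ((measurable_ev h1 v).pow_const 2) (B := (∑ u ∈ v.support, |v u|) ^ 2) ?_
    intro p
    rw [abs_pow]
    exact pow_le_pow_left₀ (abs_nonneg _) (abs_ev_le h1 v p) 2
  · have : ∀ p, ev v p ^ 2 = ev v p * ev v p := fun p => pow_two _
    simp_rw [this]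
    rw [integral_ev_mul_ev h1, e2]

theorem Data.ae_G (h1 : P1) (α : R → ℝ) (hc : Summable (fun n => ∑ s, ∑ l, α ⟨n, s, l⟩ ^ 2)) :
    ∀ᵐ p ∂sq, Summable (fun n => ∑ s, (∑ l, α ⟨n, s, l⟩ * W (D.u n l) p) ^ 2) := by
  set F : ℕ → ℝ × ℝ → ℝ := fun n p => ∑ s, (∑ l, α ⟨n, s, l⟩ * W (D.u n l) p) ^ 2 with hF
  have hFm : ∀ n, Measurable (F n) := fun n =>
    Finset.measurable_sum _ (fun s _ => (D.integral_sq h1 n (fun l => α ⟨n, s, l⟩)).1.pow_const 2)
  have hFi : ∀ n, Integrable (F n) sq := fun n =>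
    integrable_finsetSum _ (fun s _ => (D.integral_sq h1 n (fun l => α ⟨n, s, l⟩)).2.1)
  have hFint : ∀ n, ∫ p, F n p ∂sq = ∑ s, ∑ l, α ⟨n, s, l⟩ ^ 2 := by
    intro n
    simp only [hF]
    rw [integral_finsetSum _ (fun s _ => (D.integral_sq h1 n (fun l => α ⟨n, s, l⟩)).2.1)]
    exact Finset.sum_congr rfl (fun s _ => (D.integral_sq h1 n (fun l => α ⟨n, s, l⟩)).2.2)
  have hF0 : ∀ n p, 0 ≤ F n p := fun n p => Finset.sum_nonneg (fun s _ => sq_nonneg _)
  have hlin : ∫⁻ p, ∑' n, ENNReal.ofReal (F n p) ∂sq ≠ ⊤ := by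
    rw [lintegral_tsum (fun n => (hFm n).ennreal_ofReal.aemeasurable)]
    have : ∀ n, ∫⁻ p, ENNReal.ofReal (F n p) ∂sq = ENNReal.ofReal (∑ s, ∑ l, α ⟨n, s, l⟩ ^ 2) := by
      intro n
      rw [← hFint n, ofReal_integral_eq_lintegral_ofReal (hFi n) (Filter.Eventually.of_forall (hF0 n))]
    simp_rw [this]
    rw [← ENNReal.ofReal_tsum_of_nonneg (fun n => Finset.sum_nonneg (fun s _ =>
      Finset.sum_nonneg (fun l _ => sq_nonneg _))) hc]
    exact ENNReal.ofReal_ne_top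
  have hae := ae_lt_top' (Measurable.aemeasurable (Measurable.ennreal_tsum
    (fun n => (hFm n).ennreal_ofReal))) hlin
  filter_upwards [hae] with p hp
  have := ENNReal.summable_toReal hp.ne
  refine this.congr (fun n => ?_)
  exact ENNReal.toReal_ofReal (hF0 n p)

theorem regConv_add {x y : ℕ → ℕ → ℝ} (hx : RegConv x) (hy : RegConv y) :
    RegConv (fun i k => x i k + y i k) := by
  obtain ⟨⟨a, ha⟩, hb, hc⟩ := hx
  obtain ⟨⟨a', ha'⟩, hb', hc'⟩ := hy
  refine ⟨⟨a + a', ?_⟩, fun i => ?_, fun k => ?_⟩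
  · refine (ha.add ha').congr (fun q => ?_)
    rw [← Finset.sum_add_distrib]
    exact Finset.sum_congr rfl (fun i _ => (Finset.sum_add_distrib).symm)
  · obtain ⟨l, hl⟩ := hb i
    obtain ⟨l', hl'⟩ := hb' i
    exact ⟨l + l', (hl.add hl').congr (fun n => (Finset.sum_add_distrib).symm)⟩
  · obtain ⟨l, hl⟩ := hc k
    obtain ⟨l', hl'⟩ := hc' k
    exact ⟨l + l', (hl.add hl').congr (fun n => (Finset.sum_add_distrib).symm)⟩

theorem regConv_firstRow {x : ℕ → ℝ} (hx : ∃ l, Tendsto (fun n => ∑ k ∈ Finset.range n, x k) atTop (𝓝 l)) :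
    RegConv (fun i k => if i = 0 then x k else 0) := by
  obtain ⟨l, hl⟩ := hx
  refine ⟨⟨l, ?_⟩, fun i => ?_, fun k => ?_⟩
  · have h1 : Tendsto (fun q : ℕ × ℕ => ∑ k ∈ Finset.range q.2, x k) atTop (𝓝 l) := by
      rw [← Filter.prod_atTop_atTop_eq]
      exact hl.comp tendsto_snd
    refine h1.congr' ?_
    have h2 : ∀ᶠ q : ℕ × ℕ in atTop, (1, 0) ≤ q := eventually_ge_atTop _
    filter_upwards [h2] with q hq
    have hq1 : 1 ≤ q.1 := hq.1
    obtain ⟨m, hm⟩ : ∃ m, q.1 = m + 1 := ⟨q.1 - 1, by omega⟩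
    have h0 : ∑ i ∈ Finset.range m, ∑ k ∈ Finset.range q.2, (if i + 1 = 0 then x k else 0) = 0 :=
      Finset.sum_eq_zero (fun i _ => by simp)
    rw [hm, Finset.sum_range_succ', h0]
    simp
  · by_cases hi : i = 0
    · subst hi; exact ⟨l, by simpa using hl⟩
    · refine ⟨0, ?_⟩
      simp [hi]
  · refine ⟨x k, ?_⟩
    refine tendsto_const_nhds.congr' ?_
    filter_upwards [eventually_ge_atTop 1] with m hm
    obtain ⟨m', rfl⟩ : ∃ m', m = m' + 1 := ⟨m - 1, by omega⟩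
    rw [Finset.sum_range_succ', Finset.sum_eq_zero (fun i _ => by simp)]
    simp

theorem Data.conv (h1 : P1) (h2 : P2) (h4 : P4) (h6 : P6) (a : ℕ × ℕ → ℝ)
    (ha : Summable (fun q => a q ^ 2)) :
    ∀ᵐ p ∂sq, RegConv (fun i k => a (i, k) * D.phi i k p) := by
  set α : R → ℝ := fun r => a (0, D.E.symm r) with hα
  have s0 : Summable (fun k : ℕ => a (0, k) ^ 2) :=
    ha.comp_injective (i := fun k : ℕ => ((0, k) : ℕ × ℕ)) (fun x y h => by simpa using h)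
  have s1 : Summable (fun r : R => α r ^ 2) := by
    have := (D.E.symm.summable_iff (f := fun k : ℕ => a (0, k) ^ 2)).mpr s0
    exact this
  have s2 : Summable (fun n => ∑ s, ∑ l, α ⟨n, s, l⟩ ^ 2) := by
    have := s1.sigma
    refine this.congr (fun n => ?_)
    rw [tsum_fintype, Fintype.sum_prod_type]
  have hPP : ∀ n, (0:ℝ) < PP n := fun n => by exact_mod_cast PP_pos n
  have s3 : Summable (fun n => ∑ l, ((√(PP n))⁻¹ * ∑ s, α ⟨n, s, l⟩) ^ 2) := by
    refine Summable.of_nonneg_of_le (fun n => Finset.sum_nonneg (fun l _ => sq_nonneg _)) (fun n => ?_) s2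
    rw [Finset.sum_comm]
    refine Finset.sum_le_sum (fun l _ => ?_)
    have h1 : (∑ s, α ⟨n, s, l⟩) ^ 2 ≤ (Finset.univ : Finset (Fin (PP n))).card * ∑ s, α ⟨n, s, l⟩ ^ 2 :=
      sq_sum_le_card_mul_sum_sq
    rw [Finset.card_univ, Fintype.card_fin] at h1
    rw [mul_pow, inv_pow, Real.sq_sqrt (hPP n).le]
    rw [inv_mul_le_iff₀ (hPP n)]
    exact h1
  have hX := h6 (ℝ × ℝ) sq D.X 3
    (fun i k => measurable_ev h1 _)
    (fun i k => ⟨_, fun ω => abs_ev_le h1 _ ω⟩)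
    (fun Q b => D.X_fourth h1 h2 Q b) a ha
  filter_upwards [hX, D.ae_g h4 _ s3, D.ae_G h1 α s2] with p hp1 hp2 hp3
  have hrow := row_conv D α (fun n l => W (D.u n l) p) (fun n l => h1.2.1 _ _) s2 hp3 hp2
  have hreg := regConv_add hp1 (regConv_firstRow hrow)
  refine (?_ : (fun i k => a (i, k) * D.X i k p + if i = 0 then _ else 0)
    = fun i k => a (i, k) * D.phi i k p) ▸ hreg
  funext i k
  cases i with
  | zero =>
    rw [if_pos rfl, D.phi_zero]
    simp only [hα, Equiv.symm_apply_apply]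
    ring
  | succ i =>
    rw [if_neg (Nat.succ_ne_zero i), D.phi_succ]
    ring

/-- **Assembly**: all pieces together. -/
theorem assembly (h1 : P1) (h2 : P2) (h3 : P3) (h4 : P4) (h5 : P5) (h6 : P6) (h7 : P7) (h8 : P8) :
    ∃ φ : ℕ → ℕ → ℝ × ℝ → ℝ, (∀ i k, Measurable (φ i k)) ∧
      (∀ i k p, |φ i k p| ≤ 3) ∧
      (∀ i k j l, ∫ p, φ i k p * φ j l p ∂sq = if (i, k) = (j, l) then 1 else 0) ∧
      (∀ f : ℝ × ℝ → ℝ, MemLp f 2 sq → (∀ i k, ∫ p, f p * φ i k p ∂sq = 0) → f =ᵐ[sq] 0) ∧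
      (∀ a : ℕ × ℕ → ℝ, Summable (fun q => a q ^ 2) →
        ∀ᵐ p ∂sq, RegConv (fun i k => a (i, k) * φ i k p)) := by
  obtain ⟨D⟩ := exists_data h5 h7 h8
  refine ⟨D.phi, fun i k => measurable_ev h1 _, fun i k p => D.bdd h1 _ p, ?_, ?_, ?_⟩
  · intro i k j l
    unfold Data.phi
    rw [integral_ev_mul_ev h1, D.orth]
    by_cases h : (i, k) = (j, l)
    · rw [if_pos h, if_pos (by rw [h])]
    · rw [if_neg h, if_neg (fun h' => h (D.idx_inj h'))]
  · intro f hf h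
    refine D.complete h1 h3 hf (fun x => ?_)
    obtain ⟨⟨i, k⟩, rfl⟩ := D.idx_surj x
    exact h i k
  · exact fun a ha => D.conv h1 h2 h4 h6 a ha

end Pool.Agent.R259.DO
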