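import Mathlib
import Pool.Agent.R259.DO.Defs

set_option autoImplicit false

namespace Pool.Agent.R259.DO

open MeasureTheory Set Filter Topology

theorem p0_floor (N : ℕ) (t : ℝ) : ⌊(2:ℝ) ^ (N + 1) * t⌋ = 2 * ⌊(2:ℝ) ^ N * t⌋ ∨
    ⌊(2:ℝ) ^ (N + 1) * t⌋ = 2 * ⌊(2:ℝ) ^ N * t⌋ + 1 := by
  set i := ⌊(2:ℝ) ^ N * t⌋ with hi
  have h1 : (i : ℝ) ≤ (2:ℝ) ^ N * t := Int.floor_le _
  have h2 : (2:ℝ) ^ N * t < i + 1 := Int.lt_floor_add_one _
  have h3 : (2:ℝ) ^ (N + 1) * t = 2 * ((2:ℝ) ^ N * t) := by ring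
  have h4 : 2 * i ≤ ⌊(2:ℝ) ^ (N + 1) * t⌋ := by
    apply Int.le_floor.2
    push_cast
    linarith
  have h5 : ⌊(2:ℝ) ^ (N + 1) * t⌋ < 2 * i + 2 := by
    apply Int.floor_lt.2
    push_cast
    linarith
  omega

theorem p0_step (N : ℕ) (G : ℤ → ℝ) (t : ℝ) : G ⌊(2:ℝ) ^ (N + 1) * t⌋ =
    (G (2 * ⌊(2:ℝ) ^ N * t⌋) + G (2 * ⌊(2:ℝ) ^ N * t⌋ + 1)) / 2 +
      rad N t * ((G (2 * ⌊(2:ℝ) ^ N * t⌋) - G (2 * ⌊(2:ℝ) ^ N * t⌋ + 1)) / 2) := by
  unfold rad
  rcases p0_floor N t with h | h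
  · rw [h, if_pos (even_two_mul _)]
    ring
  · rw [h, if_neg (by rw [Int.not_even_iff_odd]; exact odd_two_mul_add_one _)]
    ring

theorem p0_one (N : ℕ) : ∀ G : ℤ → ℝ, ∃ c : Finset ℕ → ℝ, ∀ t : ℝ, t ∈ Ico (0:ℝ) 1 →
    G ⌊(2:ℝ) ^ N * t⌋ = ∑ A ∈ (Finset.range N).powerset, c A * wal A t := by
  induction N with
  | zero =>
    intro G
    refine ⟨fun _ => G 0, fun t ht => ?_⟩
    have : ⌊(2:ℝ) ^ 0 * t⌋ = 0 := by
      rw [pow_zero, one_mul]
      exact Int.floor_eq_zero_iff.2 ht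
    rw [this]
    simp [wal]
  | succ N ih =>
    intro G
    obtain ⟨c1, h1⟩ := ih (fun i => (G (2 * i) + G (2 * i + 1)) / 2)
    obtain ⟨c2, h2⟩ := ih (fun i => (G (2 * i) - G (2 * i + 1)) / 2)
    refine ⟨fun A => if N ∈ A then c2 (A.erase N) else c1 A, fun t ht => ?_⟩
    have hN : N ∉ Finset.range N := by simp
    rw [p0_step N G t, Finset.range_add_one, Finset.sum_powerset_insert hN]
    have e1 := h1 t ht
    have e2 := h2 t ht
    beta_reduce at e1 e2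
    rw [e1, e2, Finset.mul_sum]
    congr 1
    · apply Finset.sum_congr rfl
      intro A hA
      have hNA : N ∉ A := fun h => hN (Finset.mem_powerset.1 hA h)
      beta_reduce
      rw [if_neg hNA]
    · apply Finset.sum_congr rfl
      intro A hA
      have hNA : N ∉ A := fun h => hN (Finset.mem_powerset.1 hA h)
      beta_reduce
      rw [if_pos (Finset.mem_insert_self _ _), Finset.erase_insert hNA]
      have : wal (insert N A) t = rad N t * wal A t := by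
        unfold wal
        rw [Finset.prod_insert hNA]
      rw [this]
      ring

theorem p0 : P0 := by
  intro N G
  choose c hc using fun j : ℤ => p0_one N (fun i => G (i, j))
  choose d hd using fun A : Finset ℕ => p0_one N (fun j => c j A)
  refine ⟨fun u => d u.1 u.2, fun p hp => ?_⟩
  have hx : p.1 ∈ Ico (0:ℝ) 1 := hp.1
  have hy : p.2 ∈ Ico (0:ℝ) 1 := hp.2
  have h1 := hc ⌊(2:ℝ) ^ N * p.2⌋ p.1 hx
  rw [h1]
  unfold cube
  rw [Finset.sum_product]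
  apply Finset.sum_congr rfl
  intro A _
  have h2 := hd A p.2 hy
  rw [h2, Finset.sum_mul]
  apply Finset.sum_congr rfl
  intro B _
  unfold W
  ring

end Pool.Agent.R259.DO
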