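import Pool.Agent.R259.DO.Defs

/-! Piece P1: the double Walsh system. -/

set_option autoImplicit false
set_option linter.all false

namespace Pool.Agent.R259.DO

open MeasureTheory Set Filter Topology

/-- Lebesgue measure on the unit interval -/
noncomputable abbrev p1_mu : Measure ℝ := (volume : Measure ℝ).restrict (Icc 0 1)

theorem p1_rad_meas (a : ℕ) : Measurable (rad a) := by
  unfold rad
  refine Measurable.ite ?_ measurable_const measurable_const
  have h : Measurable fun t : ℝ => ⌊(2 : ℝ) ^ (a + 1) * t⌋ := Int.measurable_floor.comp (measurable_const.mul measurable_id)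
  exact h (MeasurableSet.of_discrete (s := {n : ℤ | Even n}))

theorem p1_rad_abs (a : ℕ) (t : ℝ) : |rad a t| = 1 := by
  unfold rad
  split_ifs <;> simp

theorem p1_rad_sq (a : ℕ) (t : ℝ) : rad a t * rad a t = 1 := by
  unfold rad
  split_ifs <;> simp

theorem p1_rad_add (a : ℕ) (t s : ℝ) (m : ℕ) (h : (2 : ℝ) ^ (a + 1) * s = m) :
    rad a (t + s) = if Even m then rad a t else - rad a t := by
  unfold rad
  have e : Even ⌊(2 : ℝ) ^ (a + 1) * (t + s)⌋ ↔ (Even ⌊(2 : ℝ) ^ (a + 1) * t⌋ ↔ Even m) := by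
    rw [mul_add, h, Int.floor_add_natCast, Int.even_add, Int.even_coe_nat]
  by_cases h1 : Even ⌊(2 : ℝ) ^ (a + 1) * t⌋ <;> by_cases h2 : Even m <;> simp only [h1, h2, e, if_true, if_false, iff_true, iff_false, true_iff, false_iff, not_true, not_false_iff, neg_neg]

theorem p1_rad_per (a : ℕ) : Function.Periodic (rad a) 1 := by
  intro t
  rw [p1_rad_add a t 1 (2 ^ (a + 1)) (by push_cast; ring), if_pos]
  rw [pow_succ]
  exact even_two.mul_left _

theorem p1_rad_self (a : ℕ) (t : ℝ) : rad a (t + 1 / 2 ^ (a + 1)) = - rad a t := by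
  rw [p1_rad_add a t _ 1 (by push_cast; field_simp), if_neg (by decide)]

theorem p1_rad_gt (a a0 : ℕ) (h : a0 < a) (t : ℝ) : rad a (t + 1 / 2 ^ (a0 + 1)) = rad a t := by
  rw [p1_rad_add a t _ (2 ^ (a - a0)) ?_, if_pos]
  · obtain ⟨k, hk⟩ : ∃ k, a - a0 = k + 1 := ⟨a - a0 - 1, by omega⟩
    rw [hk, pow_succ]
    exact even_two.mul_left _
  · obtain ⟨k, rfl⟩ : ∃ k, a = a0 + k := ⟨a - a0, by omega⟩
    rw [Nat.add_sub_cancel_left]
    push_cast
    rw [show a0 + k + 1 = k + (a0 + 1) by ring, pow_add]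
    field_simp

theorem p1_anti {g : ℝ → ℝ} {T : ℝ} (h1 : Function.Periodic g 1) (h2 : ∀ t, g (t + T) = - g t) : ∫ t, g t ∂p1_mu = 0 := by
  have e : ∫ t, g t ∂p1_mu = ∫ t in (0 : ℝ)..1, g t := by
    rw [intervalIntegral.integral_of_le zero_le_one, ← integral_Icc_eq_integral_Ioc]
  have h3 : ∫ t in (0 : ℝ)..1, g t = ∫ t in T..(T + 1), g t := by
    have := h1.intervalIntegral_add_eq 0 T
    rwa [zero_add] at this
  have h4 : ∫ t in (0 : ℝ)..1, g (t + T) = ∫ t in T..(T + 1), g t := by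
    rw [intervalIntegral.integral_comp_add_right (fun t => g t) T]
    rw [zero_add, add_comm]
  rw [e]
  have h5 : ∫ t in (0 : ℝ)..1, g (t + T) = - ∫ t in (0 : ℝ)..1, g t := by
    rw [← intervalIntegral.integral_neg]
    exact intervalIntegral.integral_congr fun t _ => h2 t
  linarith

theorem p1_wal_abs (A : Finset ℕ) (t : ℝ) : |wal A t| = 1 := by
  unfold wal
  rw [Finset.abs_prod]
  exact Finset.prod_eq_one fun a _ => p1_rad_abs a t

theorem p1_wal_meas (A : Finset ℕ) : Measurable (wal A) := by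
  unfold wal
  exact Finset.measurable_prod _ fun a _ => p1_rad_meas a

theorem p1_wal_int (A : Finset ℕ) : ∫ t, wal A t ∂p1_mu = if A = ∅ then 1 else 0 := by
  split_ifs with hA
  · subst hA
    simp [wal]
  · have hne : A.Nonempty := Finset.nonempty_iff_ne_empty.mpr hA
    refine p1_anti (T := 1 / 2 ^ (A.min' hne + 1)) ?_ ?_
    · intro t
      unfold wal
      exact Finset.prod_congr rfl fun a _ => p1_rad_per a t
    · intro t
      unfold wal
      rw [← Finset.mul_prod_erase A _ (A.min'_mem hne), ← Finset.mul_prod_erase A (fun a => rad a t) (A.min'_mem hne),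
        p1_rad_self, neg_mul]
      congr 2
      refine Finset.prod_congr rfl fun a ha => p1_rad_gt a _ ?_ t
      exact lt_of_le_of_ne (A.min'_le a (Finset.mem_of_mem_erase ha)) (Finset.ne_of_mem_erase ha).symm

theorem p1_wal_mul (A B : Finset ℕ) (t : ℝ) : wal A t * wal B t = wal (symmDiff A B) t := by
  have key : ∀ C : Finset ℕ, C ⊆ A ∪ B → wal C t = ∏ a ∈ A ∪ B, if a ∈ C then rad a t else 1 := by
    intro C hC
    rw [Finset.prod_ite_mem, Finset.inter_eq_right.mpr hC]
    rfl
  rw [key A Finset.subset_union_left, key B Finset.subset_union_right, key (symmDiff A B) (by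
    intro a ha
    rw [Finset.mem_symmDiff] at ha
    rw [Finset.mem_union]
    tauto), ← Finset.prod_mul_distrib]
  refine Finset.prod_congr rfl fun a ha => ?_
  by_cases h1 : a ∈ A <;> by_cases h2 : a ∈ B <;> simp [h1, h2, Finset.mem_symmDiff, p1_rad_sq]

theorem p1_sq : sq = p1_mu.prod p1_mu := by
  unfold sq p1_mu
  rw [Measure.volume_eq_prod, Measure.prod_restrict]

/-- **P1.** -/
theorem p1 : P1 := by
  refine ⟨?_, ?_, ?_⟩
  · intro u
    exact ((p1_wal_meas u.1).comp measurable_fst).mul ((p1_wal_meas u.2).comp measurable_snd)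
  · intro u p
    unfold W
    rw [abs_mul, p1_wal_abs, p1_wal_abs, mul_one]
  · intro u v
    have e : ∀ p : ℝ × ℝ, W u p * W v p = wal (symmDiff u.1 v.1) p.1 * wal (symmDiff u.2 v.2) p.2 := by
      intro p
      unfold W
      rw [← p1_wal_mul, ← p1_wal_mul]
      ring
    simp_rw [e]
    rw [p1_sq, integral_prod_mul (fun x => wal (symmDiff u.1 v.1) x) (fun y => wal (symmDiff u.2 v.2) y), p1_wal_int, p1_wal_int]
    have h1 : symmDiff u.1 v.1 = ∅ ↔ u.1 = v.1 := by
      rw [← Finset.bot_eq_empty, symmDiff_eq_bot]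
    have h2 : symmDiff u.2 v.2 = ∅ ↔ u.2 = v.2 := by
      rw [← Finset.bot_eq_empty, symmDiff_eq_bot]
    have h3 : u = v ↔ (symmDiff u.1 v.1 = ∅ ∧ symmDiff u.2 v.2 = ∅) := by rw [Prod.ext_iff, h1, h2]
    by_cases a : symmDiff u.1 v.1 = ∅ <;> by_cases b : symmDiff u.2 v.2 = ∅
    · rw [if_pos a, if_pos b, if_pos (h3.mpr ⟨a, b⟩), mul_one]
    · rw [if_neg b, if_neg (fun h => b (h3.mp h).2), mul_zero]
    · rw [if_neg a, if_neg (fun h => a (h3.mp h).1), zero_mul]
    · rw [if_neg a, if_neg (fun h => a (h3.mp h).1), zero_mul]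

end Pool.Agent.R259.DO
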