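import Pool.Agent.R259.DO.P1

/-! Piece P2: fourth moments of Rademacher sums. -/

set_option autoImplicit false
set_option linter.all false

namespace Pool.Agent.R259.DO

open MeasureTheory Set Filter Topology

theorem p2_int {g : ℝ → ℝ} (hg : Measurable g) (B : ℝ) (hB : ∀ t, |g t| ≤ B) : Integrable g p1_mu :=
  Integrable.of_bound hg.aestronglyMeasurable B (Filter.Eventually.of_forall fun t => by rw [Real.norm_eq_abs]; exact hB t)

/-- Rademacher sums -/
noncomputable def p2_f (s : Finset ℕ) (β : ℕ → ℝ) (t : ℝ) : ℝ := ∑ a ∈ s, β a * rad a t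

theorem p2_f_meas (s : Finset ℕ) (β : ℕ → ℝ) : Measurable (p2_f s β) := by
  unfold p2_f
  exact Finset.measurable_sum _ fun a _ => (p1_rad_meas a).const_mul _

theorem p2_f_abs (s : Finset ℕ) (β : ℕ → ℝ) (t : ℝ) : |p2_f s β t| ≤ ∑ a ∈ s, |β a| := by
  unfold p2_f
  refine (Finset.abs_sum_le_sum_abs _ _).trans (le_of_eq ?_)
  refine Finset.sum_congr rfl fun a _ => ?_
  rw [abs_mul, p1_rad_abs, mul_one]

theorem p2_pow_int (s : Finset ℕ) (β : ℕ → ℝ) (k : ℕ) : Integrable (fun t => p2_f s β t ^ k) p1_mu := by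
  refine p2_int ((p2_f_meas s β).pow_const k) ((∑ a ∈ s, |β a|) ^ k) fun t => ?_
  rw [abs_pow]
  exact pow_le_pow_left₀ (abs_nonneg _) (p2_f_abs s β t) k

theorem p2_pow_rad_int (s : Finset ℕ) (β : ℕ → ℝ) (k a0 : ℕ) : Integrable (fun t => p2_f s β t ^ k * rad a0 t) p1_mu := by
  refine p2_int (((p2_f_meas s β).pow_const k).mul (p1_rad_meas a0)) ((∑ a ∈ s, |β a|) ^ k) fun t => ?_
  rw [abs_mul, abs_pow, p1_rad_abs, mul_one]
  exact pow_le_pow_left₀ (abs_nonneg _) (p2_f_abs s β t) k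

theorem p2_zero (s : Finset ℕ) (β : ℕ → ℝ) (k a0 : ℕ) (h : ∀ a ∈ s, a0 < a) : ∫ t, p2_f s β t ^ k * rad a0 t ∂p1_mu = 0 := by
  refine p1_anti (T := 1 / 2 ^ (a0 + 1)) ?_ ?_
  · intro t
    have e : p2_f s β (t + 1) = p2_f s β t := Finset.sum_congr rfl fun a _ => by rw [p1_rad_per a t]
    show p2_f s β (t + 1) ^ k * rad a0 (t + 1) = p2_f s β t ^ k * rad a0 t
    rw [e, p1_rad_per a0 t]
  · intro t
    have e : p2_f s β (t + 1 / 2 ^ (a0 + 1)) = p2_f s β t := Finset.sum_congr rfl fun a ha => by rw [p1_rad_gt a a0 (h a ha) t]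
    rw [e, p1_rad_self, mul_neg]

theorem p2_main (β : ℕ → ℝ) (s : Finset ℕ) : ∫ t, p2_f s β t ^ 2 ∂p1_mu = ∑ a ∈ s, β a ^ 2 ∧
    ∫ t, p2_f s β t ^ 4 ∂p1_mu ≤ 3 * (∑ a ∈ s, β a ^ 2) ^ 2 := by
  have hμ : ∫ _t : ℝ, (1 : ℝ) ∂p1_mu = 1 := by simp
  induction s using Finset.induction_on_min with
  | empty => simp [p2_f]
  | insert a0 s hs ih =>
    have hns : a0 ∉ s := fun h => lt_irrefl _ (hs a0 h)
    have hf : ∀ t, p2_f (insert a0 s) β t = p2_f s β t + β a0 * rad a0 t := by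
      intro t
      unfold p2_f
      rw [Finset.sum_insert hns, add_comm]
    have hr : ∀ t, rad a0 t ^ 2 = 1 := fun t => by rw [pow_two]; exact p1_rad_sq a0 t
    have i1 := p2_pow_int s β 2
    have i2 := p2_pow_int s β 4
    have j1 := p2_pow_rad_int s β 1 a0
    have j3 := p2_pow_rad_int s β 3 a0
    have z1 := p2_zero s β 1 a0 hs
    have z3 := p2_zero s β 3 a0 hs
    constructor
    · have e : ∀ t, p2_f (insert a0 s) β t ^ 2 = p2_f s β t ^ 2 + (2 * β a0) * (p2_f s β t ^ 1 * rad a0 t) + β a0 ^ 2 * 1 := by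
        intro t
        rw [hf t]
        linear_combination (β a0 ^ 2) * hr t
      simp_rw [e]
      have I1 : Integrable (fun t => p2_f s β t ^ 2 + (2 * β a0) * (p2_f s β t ^ 1 * rad a0 t)) p1_mu := i1.add (j1.const_mul _)
      rw [integral_add I1 (integrable_const _), integral_add i1 (j1.const_mul _), integral_const_mul, z1,
        integral_const_mul, hμ, ih.1, Finset.sum_insert hns]
      ring
    · have e : ∀ t, p2_f (insert a0 s) β t ^ 4 = p2_f s β t ^ 4 + (4 * β a0) * (p2_f s β t ^ 3 * rad a0 t) +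
          (6 * β a0 ^ 2) * p2_f s β t ^ 2 + (4 * β a0 ^ 3) * (p2_f s β t ^ 1 * rad a0 t) + β a0 ^ 4 * 1 := by
        intro t
        rw [hf t]
        linear_combination (6 * β a0 ^ 2 * p2_f s β t ^ 2 + 4 * β a0 ^ 3 * p2_f s β t * rad a0 t + β a0 ^ 4 * (rad a0 t ^ 2 + 1)) * hr t
      simp_rw [e]
      have I1 : Integrable (fun t => p2_f s β t ^ 4 + (4 * β a0) * (p2_f s β t ^ 3 * rad a0 t)) p1_mu := i2.add (j3.const_mul _)
      have I2 : Integrable (fun t => p2_f s β t ^ 4 + (4 * β a0) * (p2_f s β t ^ 3 * rad a0 t) +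
          (6 * β a0 ^ 2) * p2_f s β t ^ 2) p1_mu := I1.add (i1.const_mul _)
      have I3 : Integrable (fun t => p2_f s β t ^ 4 + (4 * β a0) * (p2_f s β t ^ 3 * rad a0 t) +
          (6 * β a0 ^ 2) * p2_f s β t ^ 2 + (4 * β a0 ^ 3) * (p2_f s β t ^ 1 * rad a0 t)) p1_mu := I2.add (j1.const_mul _)
      rw [integral_add I3 (integrable_const _),
        integral_add I2 (j1.const_mul _),
        integral_add I1 (i1.const_mul _), integral_add i2 (j3.const_mul _), integral_const_mul,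
        integral_const_mul, integral_const_mul, integral_const_mul, z1, z3, hμ, ih.1, Finset.sum_insert hns]
      nlinarith [ih.2, sq_nonneg (β a0), Finset.sum_nonneg (fun a (_ : a ∈ s) => sq_nonneg (β a)), sq_nonneg (β a0 ^ 2)]

/-- **P2.** -/
theorem p2 : P2 := by
  intro s β
  have e : ∀ p : ℝ × ℝ, (∑ a ∈ s, β a * W ({a}, ∅) p) ^ 4 = (p2_f s β p.1 ^ 4) * 1 := by
    intro p
    rw [mul_one]
    congr 1
    refine Finset.sum_congr rfl fun a _ => ?_
    simp [W, wal]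
  simp_rw [e]
  rw [p1_sq, integral_prod_mul (fun x => p2_f s β x ^ 4) (fun _ => (1 : ℝ))]
  have hμ : ∫ _t : ℝ, (1 : ℝ) ∂p1_mu = 1 := by simp
  rw [hμ, mul_one]
  exact (p2_main β s).2

end Pool.Agent.R259.DO
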