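import Mathlib
import Pool.Agent.R259.DO.Defs

set_option autoImplicit false

namespace Pool.Agent.R259.DO

open MeasureTheory Set Filter Topology

/-- the dyadic index of a point -/
noncomputable def p3_phi (N : ℕ) (p : ℝ × ℝ) : ℤ × ℤ := (⌊(2:ℝ) ^ N * p.1⌋, ⌊(2:ℝ) ^ N * p.2⌋)

theorem p3_floor (N : ℕ) (t : ℝ) : ⌊(2:ℝ) ^ N * t⌋ = ⌊(2:ℝ) ^ (N + 1) * t⌋ / 2 := by
  set i := ⌊(2:ℝ) ^ N * t⌋ with hi
  have h1 : (i : ℝ) ≤ (2:ℝ) ^ N * t := Int.floor_le _
  have h2 : (2:ℝ) ^ N * t < i + 1 := Int.lt_floor_add_one _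
  have h3 : (2:ℝ) ^ (N + 1) * t = 2 * ((2:ℝ) ^ N * t) := by ring
  have h4 : 2 * i ≤ ⌊(2:ℝ) ^ (N + 1) * t⌋ := by
    apply Int.le_floor.2
    push_cast
    linarith
  have h5 : ⌊(2:ℝ) ^ (N + 1) * t⌋ < 2 * i + 2 := by
    apply Int.floor_lt.2
    push_cast
    linarith
  omega

theorem p3_phi_meas (N : ℕ) : Measurable (p3_phi N) := by
  unfold p3_phi
  fun_prop

/-- the dyadic filtration -/
noncomputable def p3_F : Filtration ℕ (inferInstance : MeasurableSpace (ℝ × ℝ)) where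
  seq N := MeasurableSpace.comap (p3_phi N) inferInstance
  mono' := by
    apply monotone_nat_of_le_succ
    intro N
    have h : p3_phi N = (fun z : ℤ × ℤ => (z.1 / 2, z.2 / 2)) ∘ p3_phi (N + 1) := by
      funext p
      simp only [p3_phi, Function.comp_apply, ← p3_floor]
    rw [h, ← MeasurableSpace.comap_comp]
    exact MeasurableSpace.comap_mono
      (measurable_of_countable (fun z : ℤ × ℤ => ((z.1 / 2, z.2 / 2) : ℤ × ℤ))).comap_le
  le' := fun N => (p3_phi_meas N).comap_le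

theorem p3_lim (t : ℝ) : Tendsto (fun N : ℕ => (⌊(2:ℝ) ^ N * t⌋ : ℝ) / 2 ^ N) atTop (𝓝 t) := by
  have h1 : Tendsto (fun N : ℕ => t - ((1:ℝ) / 2) ^ N) atTop (𝓝 (t - 0)) :=
    tendsto_const_nhds.sub (tendsto_pow_atTop_nhds_zero_of_lt_one (by norm_num) (by norm_num))
  rw [sub_zero] at h1
  apply tendsto_of_tendsto_of_tendsto_of_le_of_le h1 tendsto_const_nhds
  · intro N
    have h2 : (2:ℝ) ^ N * t < ⌊(2:ℝ) ^ N * t⌋ + 1 := Int.lt_floor_add_one _
    have hp : (0:ℝ) < 2 ^ N := by positivity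
    show t - ((1:ℝ) / 2) ^ N ≤ (⌊(2:ℝ) ^ N * t⌋ : ℝ) / 2 ^ N
    rw [le_div_iff₀ hp, sub_mul, one_div_pow]
    have : 1 / (2:ℝ) ^ N * 2 ^ N = 1 := by field_simp
    rw [this]
    linarith
  · intro N
    have h1 : (⌊(2:ℝ) ^ N * t⌋ : ℝ) ≤ (2:ℝ) ^ N * t := Int.floor_le _
    have hp : (0:ℝ) < 2 ^ N := by positivity
    show (⌊(2:ℝ) ^ N * t⌋ : ℝ) / 2 ^ N ≤ t
    rw [div_le_iff₀ hp]
    linarith

theorem p3_gen : (inferInstance : MeasurableSpace (ℝ × ℝ)) ≤ ⨆ N, p3_F N := by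
  have hphi : ∀ N, @Measurable _ _ (⨆ N, p3_F N) _ (p3_phi N) := by
    intro N
    have h1 : @Measurable _ _ (p3_F N) _ (p3_phi N) := comap_measurable _
    exact h1.mono (le_iSup _ N) le_rfl
  have h1 : @Measurable _ _ (⨆ N, p3_F N) _ (fun p : ℝ × ℝ => p.1) := by
    refine @measurable_of_tendsto_metrizable _ _ (⨆ N, p3_F N) _ _ _ _
      (fun (N : ℕ) (p : ℝ × ℝ) => (⌊(2:ℝ) ^ N * p.1⌋ : ℝ) / 2 ^ N) _ (fun N => ?_) ?_
    · exact (measurable_of_countable (fun z : ℤ × ℤ => (z.1 : ℝ) / 2 ^ N)).comp (hphi N)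
    · rw [tendsto_pi_nhds]
      intro p
      exact p3_lim p.1
  have h2 : @Measurable _ _ (⨆ N, p3_F N) _ (fun p : ℝ × ℝ => p.2) := by
    refine @measurable_of_tendsto_metrizable _ _ (⨆ N, p3_F N) _ _ _ _
      (fun (N : ℕ) (p : ℝ × ℝ) => (⌊(2:ℝ) ^ N * p.2⌋ : ℝ) / 2 ^ N) _ (fun N => ?_) ?_
    · exact (measurable_of_countable (fun z : ℤ × ℤ => (z.2 : ℝ) / 2 ^ N)).comp (hphi N)
    · rw [tendsto_pi_nhds]
      intro p
      exact p3_lim p.2
  have h3 : @Measurable _ _ (⨆ N, p3_F N) _ (fun p : ℝ × ℝ => p) := h1.prodMk h2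
  intro s hs
  exact h3 hs

theorem p3_W_meas (u : Finset ℕ × Finset ℕ) : Measurable (W u) := by
  have hr : ∀ a, Measurable (rad a) := by
    intro a
    unfold rad
    have h1 : Measurable (fun t : ℝ => ⌊(2:ℝ) ^ (a + 1) * t⌋) := by fun_prop
    exact (measurable_of_countable (fun z : ℤ => if Even z then (1:ℝ) else -1)).comp h1
  have hw : ∀ A, Measurable (wal A) := by
    intro A
    unfold wal
    exact Finset.measurable_fun_prod A (fun a _ => hr a)
  unfold W
  exact ((hw u.1).comp measurable_fst).mul ((hw u.2).comp measurable_snd)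

theorem p3_W_bdd (u : Finset ℕ × Finset ℕ) (p : ℝ × ℝ) : |W u p| = 1 := by
  have hr : ∀ a t, |rad a t| = 1 := by
    intro a t
    unfold rad
    split_ifs <;> simp
  have hw : ∀ A t, |wal A t| = 1 := by
    intro A t
    unfold wal
    rw [Finset.abs_prod]
    exact Finset.prod_eq_one (fun a _ => hr a t)
  unfold W
  rw [abs_mul, hw, hw, one_mul]

theorem p3_ae : ∀ᵐ p ∂sq, p ∈ Ico (0:ℝ) 1 ×ˢ Ico (0:ℝ) 1 := by
  have h : (Ico (0:ℝ) 1 ×ˢ Ico (0:ℝ) 1 : Set (ℝ × ℝ)) =ᵐ[volume] (Icc (0:ℝ) 1 ×ˢ Icc (0:ℝ) 1) := by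
    rw [Measure.volume_eq_prod]
    exact Measure.set_prod_ae_eq Ico_ae_eq_Icc Ico_ae_eq_Icc
  have h2 : sq = volume.restrict (Ico (0:ℝ) 1 ×ˢ Ico (0:ℝ) 1) := by
    unfold sq
    exact (Measure.restrict_congr_set h).symm
  rw [h2]
  exact ae_restrict_mem (measurableSet_Ico.prod measurableSet_Ico)

instance p3_fin : IsFiniteMeasure sq := by
  unfold sq
  constructor
  rw [Measure.restrict_apply MeasurableSet.univ, Set.univ_inter, Measure.volume_eq_prod,
    Measure.prod_prod]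
  simp

theorem p3 (h0 : P0) : P3 := by
  intro f hf hW
  have hfi : Integrable f sq := hf.integrable (by norm_num)
  have key : ∀ N s, MeasurableSet[p3_F N] s → ∫ p in s, f p ∂sq = 0 := by
    rintro N s ⟨S, -, rfl⟩
    have hS : MeasurableSet (p3_phi N ⁻¹' S) := p3_phi_meas N (Set.to_countable S).measurableSet
    obtain ⟨c, hc⟩ := h0 N (S.indicator 1)
    rw [← integral_indicator hS]
    have h1 : ∀ᵐ p ∂sq, (p3_phi N ⁻¹' S).indicator f p = ∑ u ∈ cube N, c u * (f p * W u p) := by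
      filter_upwards [p3_ae] with p hp
      have h2 := hc p hp
      have h3 : (p3_phi N ⁻¹' S).indicator f p = f p * S.indicator 1 (p3_phi N p) := by
        by_cases hm : p3_phi N p ∈ S
        · rw [Set.indicator_of_mem (show p ∈ p3_phi N ⁻¹' S from hm), Set.indicator_of_mem hm]
          simp
        · rw [Set.indicator_of_notMem (show p ∉ p3_phi N ⁻¹' S from hm), Set.indicator_of_notMem hm]
          simp
      rw [h3]
      unfold p3_phi
      rw [h2, Finset.mul_sum]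
      apply Finset.sum_congr rfl
      intro u _
      ring
    rw [integral_congr_ae h1, integral_finsetSum]
    · apply Finset.sum_eq_zero
      intro u _
      rw [integral_const_mul, hW u, mul_zero]
    · intro u _
      apply Integrable.const_mul
      exact hfi.mul_bdd (c := 1) (p3_W_meas u).aestronglyMeasurable
        (Eventually.of_forall fun p => by rw [Real.norm_eq_abs, p3_W_bdd])
  have hce : ∀ N, sq[f | p3_F N] =ᵐ[sq] 0 := by
    intro N
    symm
    apply ae_eq_condExp_of_forall_setIntegral_eq (p3_F.le N) hfi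
    · intro s _ _
      exact integrableOn_zero
    · intro s hs _
      rw [key N s hs]
      simp
    · exact aestronglyMeasurable_const
  have hlim := tendsto_ae_condExp (μ := sq) (ℱ := p3_F) f
  have hsup : (⨆ N, p3_F N) = (inferInstance : MeasurableSpace (ℝ × ℝ)) :=
    le_antisymm (iSup_le fun N => p3_F.le N) p3_gen
  have hf2 : sq[f | ⨆ N, p3_F N] =ᵐ[sq] f := by
    apply condExp_of_aestronglyMeasurable' (iSup_le fun N => p3_F.le N) _ hfi
    rw [hsup]
    exact hfi.aestronglyMeasurable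
  have hall : ∀ᵐ p ∂sq, ∀ N, (sq[f | p3_F N]) p = 0 := ae_all_iff.2 hce
  filter_upwards [hlim, hf2, hall] with p h1 h2 h3
  rw [h2] at h1
  have h4 : Tendsto (fun _ : ℕ => (0:ℝ)) atTop (𝓝 (f p)) := by
    refine h1.congr (fun N => ?_)
    exact h3 N
  exact (tendsto_nhds_unique h4 tendsto_const_nhds)

end Pool.Agent.R259.DO
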