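import Mathlib
import Pool.Agent.R259.DO.Defs

set_option autoImplicit false

namespace Pool.Agent.R259.DO

open MeasureTheory Set Filter Topology

/-- the cell of a point -/
noncomputable def p4_E (N : ℕ) (p : ℝ × ℝ) : ℤ × ℤ := (⌊(2:ℝ) ^ N * p.1⌋, ⌊(2:ℝ) ^ N * p.2⌋)

theorem p4_E_meas (N : ℕ) : Measurable (p4_E N) := by
  unfold p4_E
  exact (Int.measurable_floor.comp (measurable_fst.const_mul _)).prodMk
    (Int.measurable_floor.comp (measurable_snd.const_mul _))

theorem p4_floor (N k : ℕ) (t : ℝ) : ⌊(2:ℝ) ^ N * t⌋ = ⌊(2:ℝ) ^ (N + k) * t⌋ / 2 ^ k := by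
  have h := Int.floor_div_natCast ((2:ℝ) ^ (N + k) * t) (2 ^ k)
  have e : (2:ℝ) ^ (N + k) * t / ((2 ^ k : ℕ) : ℝ) = (2:ℝ) ^ N * t := by
    push_cast
    rw [pow_add]
    field_simp
  rw [e] at h
  rw [h]
  push_cast
  rfl

/-- the filtration -/
noncomputable def p4_F : Filtration ℕ (inferInstance : MeasurableSpace (ℝ × ℝ)) where
  seq N := MeasurableSpace.comap (p4_E N) ⊤
  mono' := by
    intro N M hNM
    obtain ⟨k, rfl⟩ := Nat.exists_eq_add_of_le hNM
    rintro s ⟨S, -, rfl⟩
    refine ⟨(fun q : ℤ × ℤ => (q.1 / 2 ^ k, q.2 / 2 ^ k)) ⁻¹' S, trivial, ?_⟩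
    ext p
    simp only [mem_preimage, p4_E]
    rw [p4_floor N k p.1, p4_floor N k p.2]
  le' := by
    rintro N s ⟨S, -, rfl⟩
    exact p4_E_meas N (MeasurableSet.of_discrete)

theorem p4_rad (N a : ℕ) (ha : a < N) : ∃ G : ℤ → ℝ, ∀ t, rad a t = G ⌊(2:ℝ) ^ N * t⌋ := by
  obtain ⟨k, rfl⟩ := Nat.exists_eq_add_of_le (Nat.succ_le_of_lt ha)
  refine ⟨fun j => if Even (j / 2 ^ k) then 1 else -1, fun t => ?_⟩
  simp only [rad]
  rw [p4_floor (a + 1) k t]

theorem p4_wal (N : ℕ) (A : Finset ℕ) (hA : A ⊆ Finset.range N) :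
    ∃ G : ℤ → ℝ, ∀ t, wal A t = G ⌊(2:ℝ) ^ N * t⌋ := by
  classical
  have h : ∀ a : ℕ, ∃ G : ℤ → ℝ, a < N → ∀ t, rad a t = G ⌊(2:ℝ) ^ N * t⌋ := by
    intro a
    by_cases ha : a < N
    · obtain ⟨G, hG⟩ := p4_rad N a ha
      exact ⟨G, fun _ => hG⟩
    · exact ⟨0, fun h => absurd h ha⟩
  choose G hG using h
  refine ⟨fun j => ∏ a ∈ A, G a j, fun t => ?_⟩
  unfold wal
  exact Finset.prod_congr rfl fun a ha => hG a (Finset.mem_range.mp (hA ha)) t

theorem p4_W (N : ℕ) (u : Finset ℕ × Finset ℕ) (hu : u ∈ cube N) :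
    ∃ G : ℤ × ℤ → ℝ, ∀ p, W u p = G (p4_E N p) := by
  unfold cube at hu
  rw [Finset.mem_product, Finset.mem_powerset, Finset.mem_powerset] at hu
  obtain ⟨G1, h1⟩ := p4_wal N u.1 hu.1
  obtain ⟨G2, h2⟩ := p4_wal N u.2 hu.2
  exact ⟨fun q => G1 q.1 * G2 q.2, fun p => by simp only [W, p4_E]; rw [h1, h2]⟩

theorem p4_adapted (d : Finset ℕ × Finset ℕ → ℝ) (N : ℕ) :
    StronglyMeasurable[p4_F N] (fun p => ∑ u ∈ cube N, d u * W u p) := by
  apply Measurable.stronglyMeasurable
  apply Finset.measurable_sum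
  intro u hu
  obtain ⟨G, hG⟩ := p4_W N u hu
  have : (fun p => d u * W u p) = (fun q => d u * G q) ∘ p4_E N := by
    funext p; simp only [Function.comp, hG]
  rw [this]
  have h1 : @Measurable _ _ (⊤ : MeasurableSpace (ℤ × ℤ)) _ (fun q => d u * G q) := measurable_from_top
  exact h1.comp (comap_measurable (m := (⊤ : MeasurableSpace (ℤ × ℤ))) (p4_E N))

theorem p4_ae : ∀ᵐ p ∂sq, p ∈ Ico (0:ℝ) 1 ×ˢ Ico (0:ℝ) 1 := by
  unfold sq
  have h1 : (volume : Measure (ℝ × ℝ)) (Icc (0:ℝ) 1 ×ˢ Icc (0:ℝ) 1 \ Ico (0:ℝ) 1 ×ˢ Ico (0:ℝ) 1) = 0 := by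
    have h2 : Icc (0:ℝ) 1 ×ˢ Icc (0:ℝ) 1 \ Ico (0:ℝ) 1 ×ˢ Ico (0:ℝ) 1 ⊆
        ({(1:ℝ)} ×ˢ univ) ∪ (univ ×ˢ {(1:ℝ)}) := by
      rintro ⟨x, y⟩ ⟨⟨hx, hy⟩, h⟩
      simp only [mem_prod, mem_Ico, not_and_or, not_le, not_lt, mem_Icc, mem_union, mem_singleton_iff,
        mem_univ, and_true, true_and] at *
      rcases h with (h | h) | (h | h)
      · linarith [hx.1]
      · left; linarith [hx.2]
      · linarith [hy.1]
      · right; linarith [hy.2]
    refine measure_mono_null h2 ?_
    rw [measure_union_null_iff]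
    constructor
    · rw [Measure.volume_eq_prod, Measure.prod_prod]; simp
    · rw [Measure.volume_eq_prod, Measure.prod_prod]; simp
  rw [ae_restrict_iff' (measurableSet_Icc.prod measurableSet_Icc)]
  rw [ae_iff]
  refine measure_mono_null ?_ h1
  intro p hp
  simp only [Set.mem_ofPred_eq, Classical.not_imp] at hp
  exact hp

instance p4_fin : IsFiniteMeasure sq := by
  unfold sq
  refine ⟨?_⟩
  rw [Measure.restrict_apply_univ, Measure.volume_eq_prod, Measure.prod_prod]
  simp

theorem p4_univ : sq univ = 1 := by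
  unfold sq
  rw [Measure.restrict_apply_univ, Measure.volume_eq_prod, Measure.prod_prod]
  simp

theorem p4_cube_mono (N : ℕ) : cube N ⊆ cube (N + 1) := by
  unfold cube
  apply Finset.product_subset_product <;>
  · apply Finset.powerset_mono.mpr
    exact Finset.range_subset_range.mpr (Nat.le_succ N)

theorem p4 (h0 : P0) (h1 : P1) : P4 := by
  classical
  obtain ⟨hm, hb, ho⟩ := h1
  intro d hd
  have hint : ∀ u, Integrable (W u) sq := by
    intro u
    refine Integrable.of_bound (hm u).aestronglyMeasurable 1 ?_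
    filter_upwards with p
    rw [Real.norm_eq_abs, hb u p]
  have hint2 : ∀ u v, Integrable (fun p => W u p * W v p) sq := by
    intro u v
    refine Integrable.of_bound ((hm u).mul (hm v)).aestronglyMeasurable 1 ?_
    filter_upwards with p
    rw [Real.norm_eq_abs, abs_mul, hb u p, hb v p, one_mul]
  set M : ℕ → ℝ × ℝ → ℝ := fun N p => ∑ u ∈ cube N, d u * W u p with hM
  have hMint : ∀ N, Integrable (M N) sq := fun N =>
    integrable_finsetSum _ fun u _ => (hint u).const_mul _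
  have hmart : Martingale M p4_F sq := by
    apply martingale_of_setIntegral_eq_succ (fun N => p4_adapted d N) hMint
    rintro N s ⟨S, -, rfl⟩
    obtain ⟨c, hc⟩ := h0 N (S.indicator 1)
    have hs : MeasurableSet (p4_E N ⁻¹' S) := p4_E_meas N (MeasurableSet.of_discrete)
    have key : ∀ f : ℝ × ℝ → ℝ, ∫ p in p4_E N ⁻¹' S, f p ∂sq = ∫ p, (∑ v ∈ cube N, c v * W v p) * f p ∂sq := by
      intro f
      rw [← integral_indicator hs]
      apply integral_congr_ae
      filter_upwards [p4_ae] with p hp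
      rw [← hc p hp]
      by_cases h : p ∈ p4_E N ⁻¹' S
      · rw [indicator_of_mem h, indicator_of_mem (show (⌊(2:ℝ) ^ N * p.1⌋, ⌊(2:ℝ) ^ N * p.2⌋) ∈ S from h)]
        simp
      · rw [indicator_of_notMem h, indicator_of_notMem (show (⌊(2:ℝ) ^ N * p.1⌋, ⌊(2:ℝ) ^ N * p.2⌋) ∉ S from h)]
        simp
    have key2 : ∀ T : Finset (Finset ℕ × Finset ℕ), ∫ p in p4_E N ⁻¹' S, (∑ u ∈ T, d u * W u p) ∂sq =
        ∑ v ∈ cube N, ∑ u ∈ T, c v * d u * (if v = u then 1 else 0) := by
      intro T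
      rw [key]
      have e : (fun p => (∑ v ∈ cube N, c v * W v p) * ∑ u ∈ T, d u * W u p) =
          fun p => ∑ v ∈ cube N, ∑ u ∈ T, c v * d u * (W v p * W u p) := by
        funext p
        rw [Finset.sum_mul_sum]
        refine Finset.sum_congr rfl fun v _ => Finset.sum_congr rfl fun u _ => ?_
        ring
      rw [e, integral_finsetSum _ fun v _ => integrable_finsetSum _ fun u _ => (hint2 v u).const_mul _]
      refine Finset.sum_congr rfl fun v _ => ?_
      rw [integral_finsetSum _ fun u _ => (hint2 v u).const_mul _]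
      refine Finset.sum_congr rfl fun u _ => ?_
      rw [integral_const_mul, ho]
    rw [key2, key2]
    refine Finset.sum_congr rfl fun v hv => ?_
    apply Finset.sum_subset (p4_cube_mono N)
    intro u _ hu
    rw [if_neg, mul_zero]
    rintro rfl
    exact hu hv
  have hL2 : ∀ N, ∫ p, M N p ^ 2 ∂sq = ∑ u ∈ cube N, d u ^ 2 := by
    intro N
    have e : (fun p => M N p ^ 2) = fun p => ∑ v ∈ cube N, ∑ u ∈ cube N, d v * d u * (W v p * W u p) := by
      funext p
      rw [hM]; simp only; rw [pow_two, Finset.sum_mul_sum]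
      refine Finset.sum_congr rfl fun v _ => Finset.sum_congr rfl fun u _ => ?_
      ring
    rw [e, integral_finsetSum _ fun v _ => integrable_finsetSum _ fun u _ => (hint2 v u).const_mul _]
    refine Finset.sum_congr rfl fun v hv => ?_
    rw [integral_finsetSum _ fun u _ => (hint2 v u).const_mul _]
    simp_rw [integral_const_mul, ho]
    rw [Finset.sum_eq_single v]
    · rw [if_pos rfl]; ring
    · intro u _ hu; rw [if_neg (Ne.symm hu), mul_zero]
    · intro h; exact absurd hv h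
  have hbd : ∀ N, eLpNorm (M N) 1 sq ≤ ((Real.toNNReal ((1 + ∑' u, d u ^ 2) / 2) : NNReal) : ENNReal) := by
    intro N
    rw [eLpNorm_one_eq_lintegral_enorm, ← ofReal_integral_norm_eq_lintegral_enorm (hMint N)]
    apply ENNReal.ofReal_le_ofReal
    have hsqint : Integrable (fun p => M N p ^ 2) sq := by
      have e : (fun p => M N p ^ 2) = fun p => ∑ v ∈ cube N, ∑ u ∈ cube N, d v * d u * (W v p * W u p) := by
        funext p
        rw [hM]; simp only; rw [pow_two, Finset.sum_mul_sum]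
        refine Finset.sum_congr rfl fun v _ => Finset.sum_congr rfl fun u _ => ?_
        ring
      rw [e]
      exact integrable_finsetSum _ fun v _ => integrable_finsetSum _ fun u _ => (hint2 v u).const_mul _
    have hu : sq.real univ = 1 := by rw [Measure.real, p4_univ]; rfl
    calc ∫ p, ‖M N p‖ ∂sq ≤ ∫ p, (1 / 2 + (1 / 2) * M N p ^ 2) ∂sq := by
          apply integral_mono (hMint N).norm ((integrable_const _).add (hsqint.const_mul _))
          intro p
          simp only [Real.norm_eq_abs, Pi.add_apply]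
          nlinarith [sq_nonneg (|M N p| - 1), sq_abs (M N p)]
      _ = 1 / 2 + (1 / 2) * ∑ u ∈ cube N, d u ^ 2 := by
          rw [integral_add (integrable_const _) (hsqint.const_mul _), integral_const, integral_const_mul,
            hL2, hu]
          simp
      _ ≤ (1 + ∑' u, d u ^ 2) / 2 := by
          have := hd.sum_le_tsum (cube N) fun u _ => sq_nonneg (d u)
          linarith
  filter_upwards [hmart.submartingale.ae_tendsto_limitProcess hbd] with p hp
  exact ⟨_, hp⟩

end Pool.Agent.R259.DO
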