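import Mathlib
import Pool.Agent.R259.DO.Defs

/-! Piece P5 of MP_aa1cf3_an (helper862). -/

set_option autoImplicit false

namespace Pool.Agent.R259.DO

/-- the sign of the second coordinate -/
def p5_sg (c : Fin 2) : ℝ := if c = 0 then 1 else -1

theorem p5_sum_two (f : Fin 2 → ℝ) : ∑ c, f c = f 0 + f 1 := Fin.sum_univ_two f

/-- the doubled matrix -/
noncomputable def p5_dbl {S : Type} [DecidableEq S] (H : S → S → ℝ) (a b : S × Fin 2) : ℝ :=
  if b.2 = 0 then H a.1 b.1 / √2 else if a.1 = b.1 then p5_sg a.2 / √2 else 0

theorem p5_aux (p : ℕ) : ∃ H : Fin (2 ^ p) → Fin (2 ^ p) → ℝ,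
    (∀ s s', ∑ t, H s t * H s' t = if s = s' then 1 else 0) ∧
    (∀ t t', ∑ s, H s t * H s t' = if t = t' then 1 else 0) ∧
    (∀ s, H s ⟨0, by positivity⟩ = (√(2 ^ p))⁻¹) ∧ ∀ s, ∑ t, |H s t| ≤ √2 + 1 := by
  have h2 : √2 * √2 = 2 := Real.mul_self_sqrt (by norm_num)
  have h2pos : 0 < √2 := Real.sqrt_pos.2 (by norm_num)
  induction p with
  | zero =>
    refine ⟨fun _ _ => 1, ?_, ?_, ?_, ?_⟩
    · intro s s'
      have : s = s' := Subsingleton.elim (α := Fin 1) s s'
      simp [this]
    · intro s s'
      have : s = s' := Subsingleton.elim (α := Fin 1) s s'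
      simp [this]
    · intro s
      simp
    · intro s
      simp
  | succ p ih =>
    obtain ⟨H, hr, hc, h0, hl⟩ := ih
    let e : Fin (2 ^ (p + 1)) ≃ Fin (2 ^ p) × Fin 2 :=
      (finCongr (pow_succ 2 p)).trans finProdFinEquiv.symm
    have he0 : e ⟨0, by positivity⟩ = (⟨0, by positivity⟩, 0) := by
      rw [Equiv.trans_apply, Equiv.symm_apply_eq]
      apply Fin.ext
      simp [finProdFinEquiv]
    have hsum : ∀ f : Fin (2 ^ p) × Fin 2 → ℝ, ∑ b, f (e b) = ∑ t, (f (t, 0) + f (t, 1)) := by
      intro f
      rw [e.sum_comp f, Fintype.sum_prod_type]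
      exact Finset.sum_congr rfl fun t _ => p5_sum_two _
    have hsg : ∀ c, p5_sg c * p5_sg c = 1 := by
      intro c
      unfold p5_sg
      split_ifs <;> norm_num
    have hdiv : ∀ x y : ℝ, x / √2 * (y / √2) = x * y / 2 := by
      intro x y
      rw [div_mul_div_comm, h2]
    refine ⟨fun a b => p5_dbl H (e a) (e b), ?_, ?_, ?_, ?_⟩
    · intro a a'
      rw [hsum (fun b => p5_dbl H (e a) b * p5_dbl H (e a') b)]
      have h1 : ∀ t, p5_dbl H (e a) (t, 0) * p5_dbl H (e a') (t, 0) +
          p5_dbl H (e a) (t, 1) * p5_dbl H (e a') (t, 1) =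
          H (e a).1 t * H (e a').1 t / 2 +
            if (e a).1 = t then (if (e a').1 = t then p5_sg (e a).2 * p5_sg (e a').2 / 2 else 0)
              else 0 := by
        intro t
        simp only [p5_dbl, if_true, Fin.one_eq_zero_iff, Nat.succ_ne_self, if_false, hdiv]
        congr 1
        split_ifs with h3 h4
        · exact hdiv _ _
        · rw [mul_zero]
        · rw [zero_mul]
        · rw [mul_zero]
      simp only [h1, Finset.sum_add_distrib, ← Finset.sum_div, hr]
      rw [Finset.sum_ite_eq Finset.univ (e a).1]
      rw [if_pos (Finset.mem_univ _)]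
      by_cases haa : a = a'
      · subst haa
        rw [if_pos rfl, if_pos rfl, if_pos rfl, hsg]
        norm_num
      · rw [if_neg haa]
        by_cases h3 : (e a).1 = (e a').1
        · rw [if_pos h3, if_pos h3.symm]
          have h4 : (e a).2 ≠ (e a').2 := fun h4 => haa (e.injective (Prod.ext h3 h4))
          have h5 : p5_sg (e a).2 * p5_sg (e a').2 = -1 := by
            generalize (e a).2 = c at h4 ⊢
            generalize (e a').2 = c' at h4 ⊢
            fin_cases c <;> fin_cases c' <;> simp [p5_sg] at h4 ⊢
          rw [h5]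
          norm_num
        · rw [if_neg h3, if_neg (fun h => h3 h.symm)]
          norm_num
    · intro b b'
      rw [hsum (fun a => p5_dbl H a (e b) * p5_dbl H a (e b'))]
      have hbb : (b = b') ↔ ((e b).1 = (e b').1 ∧ (e b).2 = (e b').2) := by
        rw [← Prod.ext_iff]
        exact e.injective.eq_iff.symm
      have hone : ∀ c : Fin 2, c ≠ 0 → c = 1 := by decide
      by_cases hd : (e b).2 = 0
      · by_cases hd' : (e b').2 = 0
        · simp only [p5_dbl, hd, hd', if_true, hdiv]
          have h3 : ∑ x, (H x (e b).1 * H x (e b').1 / 2 + H x (e b).1 * H x (e b').1 / 2) =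
              ∑ x, H x (e b).1 * H x (e b').1 := Finset.sum_congr rfl fun x _ => by ring
          rw [h3, hc]
          simp only [hbb, hd, hd', and_true]
        · have h4 : b ≠ b' := by
            rintro rfl
            exact hd' hd
          rw [if_neg h4]
          simp only [p5_dbl, hd, hd', if_true, if_false]
          apply Finset.sum_eq_zero
          intro x _
          split_ifs with h5
          · rw [hdiv, hdiv]
            simp only [p5_sg, if_true, Fin.one_eq_zero_iff, Nat.succ_ne_self, if_false]
            ring
          · simp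
      · by_cases hd' : (e b').2 = 0
        · have h4 : b ≠ b' := by
            rintro rfl
            exact hd hd'
          rw [if_neg h4]
          simp only [p5_dbl, hd, hd', if_true, if_false]
          apply Finset.sum_eq_zero
          intro x _
          split_ifs with h5
          · rw [hdiv, hdiv]
            simp only [p5_sg, if_true, Fin.one_eq_zero_iff, Nat.succ_ne_self, if_false]
            ring
          · simp
        · simp only [p5_dbl, hd, hd', if_false]
          have h3 : ∀ x : Fin (2 ^ p), ((if x = (e b).1 then p5_sg 0 / √2 else 0) *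
              (if x = (e b').1 then p5_sg 0 / √2 else 0) +
              (if x = (e b).1 then p5_sg 1 / √2 else 0) *
              (if x = (e b').1 then p5_sg 1 / √2 else 0)) =
              if x = (e b).1 then (if x = (e b').1 then (1 : ℝ) else 0) else 0 := by
            intro x
            split_ifs
            · rw [hdiv, hdiv, hsg, hsg]; norm_num
            · simp
            · simp
            · simp
          simp only [h3]
          rw [Finset.sum_ite_eq' Finset.univ (e b).1, if_pos (Finset.mem_univ _)]
          have h5 : (e b).2 = (e b').2 := by rw [hone _ hd, hone _ hd']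
          simp only [hbb, h5, and_true]
    · intro a
      change p5_dbl H (e a) (e ⟨0, by positivity⟩) = _
      rw [he0]
      simp only [p5_dbl, if_true]
      rw [h0, pow_succ, Real.sqrt_mul (by positivity), mul_inv]
      rfl
    · intro a
      rw [hsum (fun b => |p5_dbl H (e a) b|)]
      have h1 : ∀ t, |p5_dbl H (e a) (t, 0)| + |p5_dbl H (e a) (t, 1)| =
          |H (e a).1 t| / √2 + if (e a).1 = t then 1 / √2 else 0 := by
        intro t
        simp only [p5_dbl, if_true, Fin.one_eq_zero_iff, Nat.succ_ne_self, if_false]
        rw [abs_div, abs_of_pos h2pos]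
        congr 1
        split_ifs
        · rw [abs_div, abs_of_pos h2pos]
          congr 1
          unfold p5_sg
          split_ifs <;> simp
        · simp
      simp only [h1, Finset.sum_add_distrib, ← Finset.sum_div]
      rw [Finset.sum_ite_eq Finset.univ (e a).1, if_pos (Finset.mem_univ _), ← add_div,
        div_le_iff₀ h2pos]
      have := hl (e a).1
      nlinarith

/-- P5. -/
theorem p5 : P5 := by
  intro p
  obtain ⟨H, h1, h2, h3, h4⟩ := p5_aux p
  refine ⟨H, h1, h2, h3, fun s => (h4 s).trans ?_⟩
  have : √2 ≤ 2 := by
    rw [Real.sqrt_le_left (by norm_num)]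
    norm_num
  linarith

end Pool.Agent.R259.DO
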