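import Mathlib
import Pool.Agent.R259.DO.Defs

set_option autoImplicit false

namespace Pool.Agent.R259.DO

open MeasureTheory Set Filter Topology
open scoped ENNReal NNReal

lemma p6_real (A B : ℝ) (hA : 0 ≤ A) (hB : 0 ≤ B) :
    (A + B) ^ 4 ≤ 216 * A ^ 4 + 7 / 4 * B ^ 4 := by
  have hx : 6 * A ∈ Ici (0:ℝ) := by
    simp only [mem_Ici]; positivity
  have hy : 6 / 5 * B ∈ Ici (0:ℝ) := by
    simp only [mem_Ici]; positivity
  have h := (convexOn_pow (𝕜 := ℝ) 4).2 hx hy (show (0:ℝ) ≤ 1 / 6 by norm_num)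
    (show (0:ℝ) ≤ 5 / 6 by norm_num) (show (1 / 6 + 5 / 6 : ℝ) = 1 by norm_num)
  simp only [smul_eq_mul] at h
  have e : 1 / 6 * (6 * A) + 5 / 6 * (6 / 5 * B) = A + B := by ring
  rw [e] at h
  have hB4 : 0 ≤ B ^ 4 := by positivity
  have e2 : 1 / 6 * (6 * A) ^ 4 + 5 / 6 * (6 / 5 * B) ^ 4 = 216 * A ^ 4 + 1728 / 1000 * B ^ 4 := by
    ring
  rw [e2] at h
  linarith

lemma p6_enn (A B : ℝ≥0∞) :
    (A + B) ^ 4 ≤ 216 * A ^ 4 + ((7 / 4 : ℝ≥0) : ℝ≥0∞) * B ^ 4 := by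
  rcases eq_or_ne A ⊤ with hA | hA
  · subst hA
    simp
  rcases eq_or_ne B ⊤ with hB | hB
  · subst hB
    simp
  lift A to ℝ≥0 using hA
  lift B to ℝ≥0 using hB
  have h := p6_real A B A.2 B.2
  have h2 : (A + B) ^ 4 ≤ 216 * A ^ 4 + 7 / 4 * B ^ 4 := by
    rw [← NNReal.coe_le_coe]
    push_cast
    exact h
  exact_mod_cast h2

lemma p6_max4 (A B : ℝ≥0∞) : (max A B) ^ 4 ≤ A ^ 4 + B ^ 4 := by
  rcases le_total A B with h | h
  · rw [max_eq_right h]; exact le_add_self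
  · rw [max_eq_left h]; exact le_self_add

/-- abstract maximal inequality on finite ranges -/
lemma p6_max {Ω : Type} [MeasurableSpace Ω] (μ : Measure Ω) (b : ℕ → ℝ≥0) (C : ℝ≥0)
    (Y : ℕ → ℕ → Ω → ℝ≥0∞) (hYm : ∀ i j, Measurable (Y i j))
    (hY : ∀ i j k, i ≤ j → j ≤ k → ∀ ω, Y i k ω ≤ Y i j ω + Y j k ω)
    (hY4 : ∀ i j, i ≤ j → ∫⁻ ω, (Y i j ω) ^ 4 ∂μ ≤
      ((C * (∑ t ∈ Finset.Ico i j, b t) ^ 2 : ℝ≥0) : ℝ≥0∞)) (d : ℕ) :
    ∀ i k, i ≤ k → k ≤ i + d → ∫⁻ ω, (⨆ j ∈ Icc i k, Y i j ω) ^ 4 ∂μ ≤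
      ((1728 * C * (∑ t ∈ Finset.Ico i k, b t) ^ 2 : ℝ≥0) : ℝ≥0∞) := by
  classical
  have hMm : ∀ i k, Measurable (fun ω => ⨆ j ∈ Icc i k, Y i j ω) := fun i k =>
    Measurable.biSup _ (to_countable _) fun j _ => hYm i j
  have hbase : ∀ i, ∫⁻ ω, (⨆ j ∈ Icc i i, Y i j ω) ^ 4 ∂μ ≤
      ((1728 * C * (∑ t ∈ Finset.Ico i i, b t) ^ 2 : ℝ≥0) : ℝ≥0∞) := by
    intro i
    have h := hY4 i i le_rfl
    simp only [Icc_self, mem_singleton_iff, iSup_iSup_eq_left]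
    refine h.trans ?_
    simp
  induction d with
  | zero =>
    intro i k hik hk
    obtain rfl : k = i := by omega
    exact hbase k
  | succ d ih =>
    intro i k hik hk
    rcases eq_or_lt_of_le hik with rfl | hlt
    · exact hbase i
    set F : ℝ≥0 := ∑ t ∈ Finset.Ico i k, b t with hF
    let P : ℕ → Prop := fun j => ∑ t ∈ Finset.Ico i j, b t ≤ F / 2
    have hPi : P i := by simp [P]
    set j0 := Nat.findGreatest P (k - 1) with hj0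
    have h1 : i ≤ j0 := Nat.le_findGreatest (by omega) hPi
    have h2 : P j0 := Nat.findGreatest_spec (P := P) (m := i) (by omega) hPi
    have h3 : j0 ≤ k - 1 := Nat.findGreatest_le _
    have h4 : ∑ t ∈ Finset.Ico (j0 + 1) k, b t ≤ F / 2 := by
      rcases eq_or_lt_of_le h3 with h5 | h5
      · rw [h5, Nat.sub_add_cancel (by omega), Finset.Ico_self, Finset.sum_empty]
        exact zero_le
      · have h6 : ¬ P (j0 + 1) := Nat.findGreatest_is_greatest (Nat.lt_succ_self _) (by omega)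
        simp only [P, not_le] at h6
        have h7 : F = ∑ t ∈ Finset.Ico i (j0 + 1), b t + ∑ t ∈ Finset.Ico (j0 + 1) k, b t := by
          rw [hF, Finset.sum_Ico_consecutive _ (by omega) (by omega)]
        rw [← NNReal.coe_le_coe]
        rw [← NNReal.coe_lt_coe] at h6
        rw [← NNReal.coe_inj] at h7
        push_cast at h6 h7 ⊢
        linarith
    have hk1 : j0 + 1 ≤ k := by omega
    have key : ∀ ω, (⨆ j ∈ Icc i k, Y i j ω) ≤ Y i (j0 + 1) ω +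
        max (⨆ j ∈ Icc i j0, Y i j ω) (⨆ j ∈ Icc (j0 + 1) k, Y (j0 + 1) j ω) := by
      intro ω
      refine iSup₂_le fun j hj => ?_
      rcases Nat.lt_or_ge j0 j with h8 | h8
      · refine (hY i (j0 + 1) j (by omega) h8 ω).trans ?_
        gcongr
        refine le_max_of_le_right ?_
        exact le_iSup₂ (f := fun j (_ : j ∈ Icc (j0 + 1) k) => Y (j0 + 1) j ω) j ⟨h8, hj.2⟩
      · refine le_add_left ?_
        refine le_max_of_le_left ?_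
        exact le_iSup₂ (f := fun j (_ : j ∈ Icc i j0) => Y i j ω) j ⟨hj.1, h8⟩
    have ih1 := ih i j0 h1 (by omega)
    have ih2 := ih (j0 + 1) k hk1 (by omega)
    have hY1 := hY4 i (j0 + 1) (by omega)
    calc ∫⁻ ω, (⨆ j ∈ Icc i k, Y i j ω) ^ 4 ∂μ
        ≤ ∫⁻ ω, (216 * (Y i (j0 + 1) ω) ^ 4 + ((7 / 4 : ℝ≥0) : ℝ≥0∞) *
            ((⨆ j ∈ Icc i j0, Y i j ω) ^ 4 + (⨆ j ∈ Icc (j0 + 1) k, Y (j0 + 1) j ω) ^ 4)) ∂μ := by
          refine lintegral_mono fun ω => ?_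
          refine (pow_le_pow_left₀ zero_le (key ω) 4).trans ?_
          refine (p6_enn _ _).trans ?_
          gcongr
          exact p6_max4 _ _
      _ = 216 * ∫⁻ ω, (Y i (j0 + 1) ω) ^ 4 ∂μ + ((7 / 4 : ℝ≥0) : ℝ≥0∞) *
            (∫⁻ ω, (⨆ j ∈ Icc i j0, Y i j ω) ^ 4 ∂μ +
              ∫⁻ ω, (⨆ j ∈ Icc (j0 + 1) k, Y (j0 + 1) j ω) ^ 4 ∂μ) := by
          have m1 := (hMm i j0).pow_const 4
          have m2 := (hMm (j0 + 1) k).pow_const 4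
          have m3 : Measurable (fun ω => (⨆ j ∈ Icc i j0, Y i j ω) ^ 4 +
            (⨆ j ∈ Icc (j0 + 1) k, Y (j0 + 1) j ω) ^ 4) := m1.add m2
          rw [lintegral_add_left (((hYm _ _).pow_const 4).const_mul _),
            lintegral_const_mul _ ((hYm _ _).pow_const 4),
            lintegral_const_mul _ m3, lintegral_add_left m1]
      _ ≤ 216 * ((C * (∑ t ∈ Finset.Ico i (j0 + 1), b t) ^ 2 : ℝ≥0) : ℝ≥0∞) +
            ((7 / 4 : ℝ≥0) : ℝ≥0∞) *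
            (((1728 * C * (∑ t ∈ Finset.Ico i j0, b t) ^ 2 : ℝ≥0) : ℝ≥0∞) +
              ((1728 * C * (∑ t ∈ Finset.Ico (j0 + 1) k, b t) ^ 2 : ℝ≥0) : ℝ≥0∞)) := by
          gcongr
      _ ≤ ((1728 * C * F ^ 2 : ℝ≥0) : ℝ≥0∞) := by
          have h9 : ∑ t ∈ Finset.Ico i (j0 + 1), b t ≤ F := by
            rw [hF]
            exact Finset.sum_le_sum_of_subset (Finset.Ico_subset_Ico le_rfl hk1)
          have h10 : 216 * (C * (∑ t ∈ Finset.Ico i (j0 + 1), b t) ^ 2) + 7 / 4 *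
              (1728 * C * (∑ t ∈ Finset.Ico i j0, b t) ^ 2 +
              1728 * C * (∑ t ∈ Finset.Ico (j0 + 1) k, b t) ^ 2) ≤ 1728 * C * F ^ 2 := by
            calc _ ≤ 216 * (C * F ^ 2) + 7 / 4 *
              (1728 * C * (F / 2) ^ 2 + 1728 * C * (F / 2) ^ 2) := by
                  have h2' : ∑ t ∈ Finset.Ico i j0, b t ≤ F / 2 := h2
                  gcongr
              _ = 1728 * C * F ^ 2 := by
                  rw [← NNReal.coe_inj]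
                  push_cast
                  ring
          exact_mod_cast h10

/-- abstract maximal inequality, infinite range -/
lemma p6_max_inf {Ω : Type} [MeasurableSpace Ω] (μ : Measure Ω) (b : ℕ → ℝ≥0) (C : ℝ≥0)
    (Y : ℕ → ℕ → Ω → ℝ≥0∞) (hYm : ∀ i j, Measurable (Y i j))
    (hY : ∀ i j k, i ≤ j → j ≤ k → ∀ ω, Y i k ω ≤ Y i j ω + Y j k ω)
    (hY4 : ∀ i j, i ≤ j → ∫⁻ ω, (Y i j ω) ^ 4 ∂μ ≤
      ((C * (∑ t ∈ Finset.Ico i j, b t) ^ 2 : ℝ≥0) : ℝ≥0∞))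
    (T : ℝ≥0) (hT : ∀ k, ∑ t ∈ Finset.Ico 0 k, b t ≤ T) :
    ∫⁻ ω, (⨆ j, Y 0 j ω) ^ 4 ∂μ ≤ ((1728 * C * T ^ 2 : ℝ≥0) : ℝ≥0∞) := by
  have hMm : ∀ k, Measurable (fun ω => (⨆ j ∈ Icc 0 k, Y 0 j ω) ^ 4) := fun k =>
    (Measurable.biSup _ (to_countable _) fun j _ => hYm 0 j).pow_const 4
  have hmono : Monotone (fun k ω => (⨆ j ∈ Icc 0 k, Y 0 j ω) ^ 4) := by
    intro k k' hkk' ω
    refine pow_le_pow_left₀ zero_le ?_ 4
    refine iSup₂_le fun j hj => ?_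
    exact le_iSup₂ (f := fun j (_ : j ∈ Icc 0 k') => Y 0 j ω) j ⟨hj.1, hj.2.trans hkk'⟩
  calc ∫⁻ ω, (⨆ j, Y 0 j ω) ^ 4 ∂μ
      ≤ ∫⁻ ω, ⨆ k, (⨆ j ∈ Icc 0 k, Y 0 j ω) ^ 4 ∂μ := by
        refine lintegral_mono fun ω => ?_
        simp only
        rw [ENNReal.iSup_pow]
        refine iSup_le fun j => ?_
        refine le_iSup_of_le j ?_
        refine pow_le_pow_left₀ zero_le ?_ 4
        exact le_iSup₂ (f := fun i (_ : i ∈ Icc 0 j) => Y 0 i ω) j ⟨by simp, le_rfl⟩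
    _ = ⨆ k, ∫⁻ ω, (⨆ j ∈ Icc 0 k, Y 0 j ω) ^ 4 ∂μ := lintegral_iSup hMm hmono
    _ ≤ _ := by
        refine iSup_le fun k => ?_
        refine (p6_max μ b C Y hYm hY hY4 k 0 k (by simp) (by simp)).trans ?_
        have := hT k
        gcongr

lemma p6_trunc (f : ℕ → ℝ) (M m : ℕ) (h : M ≤ m) :
    ∑ i ∈ Finset.Ico 0 m, (if M ≤ i then f i else 0) =
      ∑ i ∈ Finset.Ico 0 m, f i - ∑ i ∈ Finset.Ico 0 M, f i := by
  induction m, h using Nat.le_induction with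
  | base =>
    rw [sub_self]
    refine Finset.sum_eq_zero fun i hi => ?_
    rw [if_neg]
    simp only [Finset.mem_Ico] at hi
    omega
  | succ m hm ih =>
    rw [Finset.sum_Ico_succ_top (by simp), Finset.sum_Ico_succ_top (by simp), ih, if_pos hm]
    ring

lemma p6_tail (a : ℕ × ℕ → ℝ) (ha : Summable fun q => ‖a q‖₊ ^ 2) (g : ℕ × ℕ → ℕ) :
    (∀ M, Summable fun q => ‖if M ≤ g q then a q else 0‖₊ ^ 2) ∧
    Tendsto (fun M => ∑' q, ‖if M ≤ g q then a q else 0‖₊ ^ 2) atTop (𝓝 0) := by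
  have hle : ∀ M q, ‖if M ≤ g q then a q else 0‖₊ ^ 2 ≤ ‖a q‖₊ ^ 2 := by
    intro M q
    split_ifs
    · exact le_rfl
    · simp
  have hs : ∀ M, Summable fun q => ‖if M ≤ g q then a q else 0‖₊ ^ 2 := fun M =>
    NNReal.summable_of_le (hle M) ha
  refine ⟨hs, ?_⟩
  have h : Tendsto (fun M => ∑' q, ((‖if M ≤ g q then a q else 0‖₊ ^ 2 : ℝ≥0) : ℝ)) atTop
      (𝓝 (∑' q : ℕ × ℕ, (0:ℝ))) := by
    refine tendsto_tsum_of_dominated_convergence (bound := fun q => ((‖a q‖₊ ^ 2 : ℝ≥0) : ℝ))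
      (NNReal.summable_coe.2 ha) ?_ ?_
    · intro q
      refine tendsto_const_nhds.congr' ?_
      filter_upwards [eventually_gt_atTop (g q)] with M hM
      rw [if_neg (by omega)]
      simp
    · refine Eventually.of_forall fun M q => ?_
      rw [Real.norm_eq_abs, abs_of_nonneg (NNReal.coe_nonneg _)]
      exact_mod_cast hle M q
  rw [tsum_zero] at h
  rw [← NNReal.tendsto_coe]
  simpa only [NNReal.coe_tsum, NNReal.coe_zero] using h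

section conv

variable {Ω : Type} [MeasurableSpace Ω] (μ : Measure Ω) [IsFiniteMeasure μ]
  (X : ℕ → ℕ → Ω → ℝ) (C : ℝ) (hXm : ∀ i k, Measurable (X i k))
  (hXb : ∀ i k, ∃ B, ∀ ω, |X i k ω| ≤ B)
  (hX4 : ∀ (Q : Finset (ℕ × ℕ)) (a : ℕ × ℕ → ℝ),
    ∫ ω, (∑ q ∈ Q, a q * X q.1 q.2 ω) ^ 4 ∂μ ≤ C * (∑ q ∈ Q, a q ^ 2) ^ 2)

include hXm hXb hX4

lemma p6_four (Q : Finset (ℕ × ℕ)) (a : ℕ × ℕ → ℝ) :
    ∫⁻ ω, (ENNReal.ofReal |∑ q ∈ Q, a q * X q.1 q.2 ω|) ^ 4 ∂μ ≤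
      ((C.toNNReal * (∑ q ∈ Q, ‖a q‖₊ ^ 2) ^ 2 : ℝ≥0) : ℝ≥0∞) := by
  have hm : Measurable (fun ω => ∑ q ∈ Q, a q * X q.1 q.2 ω) :=
    Finset.measurable_fun_sum _ fun q _ => (hXm q.1 q.2).const_mul _
  choose B hB using hXb
  have hb : ∀ ω, |∑ q ∈ Q, a q * X q.1 q.2 ω| ≤ ∑ q ∈ Q, |a q| * B q.1 q.2 := by
    intro ω
    refine (Finset.abs_sum_le_sum_abs _ _).trans (Finset.sum_le_sum fun q _ => ?_)
    rw [abs_mul]
    exact mul_le_mul_of_nonneg_left (hB _ _ _) (abs_nonneg _)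
  have hi : Integrable (fun ω => (∑ q ∈ Q, a q * X q.1 q.2 ω) ^ 4) μ := by
    refine Integrable.of_bound (hm.pow_const 4).aestronglyMeasurable
      ((∑ q ∈ Q, |a q| * B q.1 q.2) ^ 4) (Eventually.of_forall fun ω => ?_)
    rw [Real.norm_eq_abs, abs_pow]
    exact pow_le_pow_left₀ (abs_nonneg _) (hb ω) 4
  have h1 : ∫⁻ ω, (ENNReal.ofReal |∑ q ∈ Q, a q * X q.1 q.2 ω|) ^ 4 ∂μ =
      ENNReal.ofReal (∫ ω, (∑ q ∈ Q, a q * X q.1 q.2 ω) ^ 4 ∂μ) := by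
    rw [ofReal_integral_eq_lintegral_ofReal hi (Eventually.of_forall fun ω => by positivity)]
    refine lintegral_congr fun ω => ?_
    rw [← ENNReal.ofReal_pow (abs_nonneg _), ← abs_pow, abs_of_nonneg (by positivity)]
  rw [h1]
  refine (ENNReal.ofReal_le_ofReal (hX4 Q a)).trans ?_
  rw [ENNReal.ofReal_mul' (by positivity), ENNReal.coe_mul]
  refine mul_le_mul' le_rfl (le_of_eq ?_)
  rw [ENNReal.ofReal]
  congr 1
  rw [← NNReal.coe_inj, Real.coe_toNNReal _ (by positivity)]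
  push_cast
  simp only [Real.norm_eq_abs, sq_abs]

lemma p6_max2 (a : ℕ × ℕ → ℝ) (ha : Summable fun q => ‖a q‖₊ ^ 2) :
    ∫⁻ ω, (⨆ m, ⨆ n, ENNReal.ofReal |∑ i ∈ Finset.Ico 0 m, ∑ k ∈ Finset.Ico 0 n,
      a (i, k) * X i k ω|) ^ 4 ∂μ ≤
      ((1728 * (1728 * C.toNNReal) * (∑' q, ‖a q‖₊ ^ 2) ^ 2 : ℝ≥0) : ℝ≥0∞) := by
  have hrow : ∀ i, Summable fun k => ‖a (i, k)‖₊ ^ 2 := fun i =>
    NNReal.summable_comp_injective (f := fun q : ℕ × ℕ => ‖a q‖₊ ^ 2) ha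
      (i := fun k => (i, k)) (fun k k' h => (Prod.mk.inj h).2)
  have hmeas : ∀ (s t : Finset ℕ), Measurable (fun ω => ENNReal.ofReal
      |∑ i ∈ s, ∑ k ∈ t, a (i, k) * X i k ω|) := fun s t =>
    (Finset.measurable_fun_sum _ fun i _ => Finset.measurable_fun_sum _ fun k _ =>
      (hXm i k).const_mul _).abs.ennreal_ofReal
  -- columns
  have hcol : ∀ i i', ∫⁻ ω, (⨆ n, ENNReal.ofReal |∑ t ∈ Finset.Ico i i', ∑ s ∈ Finset.Ico 0 n,
      a (t, s) * X t s ω|) ^ 4 ∂μ ≤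
      ((1728 * C.toNNReal * (∑ t ∈ Finset.Ico i i', ∑' s, ‖a (t, s)‖₊ ^ 2) ^ 2 : ℝ≥0) : ℝ≥0∞) := by
    intro i i'
    refine p6_max_inf μ (fun s => ∑ t ∈ Finset.Ico i i', ‖a (t, s)‖₊ ^ 2) C.toNNReal
      (fun k k' ω => ENNReal.ofReal |∑ t ∈ Finset.Ico i i', ∑ s ∈ Finset.Ico k k',
      a (t, s) * X t s ω|) (fun k k' => hmeas _ _) ?_ ?_ _ ?_
    · intro j j' k h1 h2 ω
      rw [← ENNReal.ofReal_add (abs_nonneg _) (abs_nonneg _)]
      refine ENNReal.ofReal_le_ofReal ?_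
      refine le_trans (le_of_eq ?_) (abs_add_le _ _)
      congr 1
      rw [← Finset.sum_add_distrib]
      refine Finset.sum_congr rfl fun t _ => ?_
      rw [Finset.sum_Ico_consecutive _ h1 h2]
    · intro k k' _
      have h := p6_four μ X C hXm hXb hX4 (Finset.Ico i i' ×ˢ Finset.Ico k k') a
      simp only [Finset.sum_product] at h
      rw [Finset.sum_comm] at h
      have e : ∀ ω, ∑ x ∈ Finset.Ico i i', ∑ y ∈ Finset.Ico k k', a (x, y) * X x y ω =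
        ∑ x ∈ Finset.Ico i i', ∑ y ∈ Finset.Ico k k', a (x, y) * X x y ω := fun _ => rfl
      exact h
    · intro k
      rw [Finset.sum_comm]
      refine Finset.sum_le_sum fun t _ => ?_
      exact (hrow t).sum_le_tsum _ fun _ _ => zero_le
  refine p6_max_inf μ (fun t => ∑' s, ‖a (t, s)‖₊ ^ 2) (1728 * C.toNNReal)
      (fun i i' ω => ⨆ n, ENNReal.ofReal |∑ t ∈ Finset.Ico i i', ∑ s ∈ Finset.Ico 0 n,
      a (t, s) * X t s ω|) (fun i i' => Measurable.iSup fun n => hmeas _ _) ?_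
      (fun i i' _ => hcol i i') _ ?_
  · intro i j k h1 h2 ω
    refine iSup_le fun n => ?_
    refine le_trans ?_ (add_le_add (le_iSup _ n) (le_iSup _ n))
    rw [← ENNReal.ofReal_add (abs_nonneg _) (abs_nonneg _)]
    refine ENNReal.ofReal_le_ofReal ?_
    refine le_trans (le_of_eq ?_) (abs_add_le _ _)
    congr 1
    rw [Finset.sum_Ico_consecutive _ h1 h2]
  · intro k
    rw [← ENNReal.coe_le_coe, ENNReal.ofNNReal_finsetSum, ENNReal.coe_tsum ha]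
    calc ∑ t ∈ Finset.Ico 0 k, ((∑' s, ‖a (t, s)‖₊ ^ 2 : ℝ≥0) : ℝ≥0∞)
        = ∑ t ∈ Finset.Ico 0 k, ∑' s, ((‖a (t, s)‖₊ ^ 2 : ℝ≥0) : ℝ≥0∞) :=
          Finset.sum_congr rfl fun t _ => ENNReal.coe_tsum (hrow t)
      _ ≤ ∑' t, ∑' s, ((‖a (t, s)‖₊ ^ 2 : ℝ≥0) : ℝ≥0∞) := ENNReal.sum_le_tsum _
      _ = _ := (ENNReal.tsum_prod (f := fun t s => ((‖a (t, s)‖₊ ^ 2 : ℝ≥0) : ℝ≥0∞))).symm

lemma p6_conv (a : ℕ × ℕ → ℝ) (ha : Summable fun q => ‖a q‖₊ ^ 2) :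
    ∀ᵐ ω ∂μ, ∃ l, Tendsto (fun q : ℕ × ℕ => ∑ i ∈ Finset.range q.1, ∑ k ∈ Finset.range q.2,
      a (i, k) * X i k ω) atTop (𝓝 l) := by
  set a1 : ℕ → ℕ × ℕ → ℝ := fun M q => if M ≤ q.1 then a q else 0 with ha1
  set a2 : ℕ → ℕ × ℕ → ℝ := fun M q => if M ≤ q.2 then a q else 0 with ha2
  obtain ⟨hs1, ht1⟩ := p6_tail a ha (fun q => q.1)
  obtain ⟨hs2, ht2⟩ := p6_tail a ha (fun q => q.2)
  let Mx : (ℕ × ℕ → ℝ) → Ω → ℝ≥0∞ := fun c ω => ⨆ m, ⨆ n, ENNReal.ofReal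
    |∑ i ∈ Finset.Ico 0 m, ∑ k ∈ Finset.Ico 0 n, c (i, k) * X i k ω|
  have hMxm : ∀ c, Measurable (Mx c) := fun c =>
    Measurable.iSup fun m => Measurable.iSup fun n =>
    (Finset.measurable_fun_sum _ fun i _ => Finset.measurable_fun_sum _ fun k _ =>
      (hXm i k).const_mul _).abs.ennreal_ofReal
  let D : ℕ → Ω → ℝ≥0∞ := fun M ω => Mx (a1 M) ω + Mx (a2 M) ω
  have hDm : ∀ M, Measurable (D M) := fun M => (hMxm _).add (hMxm _)
  have hD4 : ∀ M, ∫⁻ ω, (D M ω) ^ 4 ∂μ ≤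
      (216 * ((1728 * (1728 * C.toNNReal) * (∑' q, ‖a1 M q‖₊ ^ 2) ^ 2)) + 7 / 4 *
        (1728 * (1728 * C.toNNReal) * (∑' q, ‖a2 M q‖₊ ^ 2) ^ 2) : ℝ≥0) := by
    intro M
    calc ∫⁻ ω, (D M ω) ^ 4 ∂μ ≤ ∫⁻ ω, (216 * (Mx (a1 M) ω) ^ 4 + ((7 / 4 : ℝ≥0) : ℝ≥0∞) *
          (Mx (a2 M) ω) ^ 4) ∂μ := lintegral_mono fun ω => p6_enn _ _
      _ = 216 * ∫⁻ ω, (Mx (a1 M) ω) ^ 4 ∂μ + ((7 / 4 : ℝ≥0) : ℝ≥0∞) *
          ∫⁻ ω, (Mx (a2 M) ω) ^ 4 ∂μ := by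
          rw [lintegral_add_left (((hMxm _).pow_const 4).const_mul _),
            lintegral_const_mul _ ((hMxm _).pow_const 4),
            lintegral_const_mul _ ((hMxm _).pow_const 4)]
      _ ≤ 216 * ((1728 * (1728 * C.toNNReal) * (∑' q, ‖a1 M q‖₊ ^ 2) ^ 2 : ℝ≥0) : ℝ≥0∞) +
          ((7 / 4 : ℝ≥0) : ℝ≥0∞) *
          ((1728 * (1728 * C.toNNReal) * (∑' q, ‖a2 M q‖₊ ^ 2) ^ 2 : ℝ≥0) : ℝ≥0∞) := by
          have e1 := p6_max2 μ X C hXm hXb hX4 (a1 M) (hs1 M)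
          have e2 := p6_max2 μ X C hXm hXb hX4 (a2 M) (hs2 M)
          exact add_le_add (mul_le_mul' le_rfl e1) (mul_le_mul' le_rfl e2)
      _ = _ := by push_cast; rfl
  have hlim : Tendsto (fun M => ((216 * ((1728 * (1728 * C.toNNReal) *
      (∑' q, ‖a1 M q‖₊ ^ 2) ^ 2)) + 7 / 4 *
        (1728 * (1728 * C.toNNReal) * (∑' q, ‖a2 M q‖₊ ^ 2) ^ 2) : ℝ≥0) : ℝ≥0∞)) atTop (𝓝 0) := by
    have h : Tendsto (fun M => (216 * ((1728 * (1728 * C.toNNReal) *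
      (∑' q, ‖a1 M q‖₊ ^ 2) ^ 2)) + 7 / 4 *
        (1728 * (1728 * C.toNNReal) * (∑' q, ‖a2 M q‖₊ ^ 2) ^ 2) : ℝ≥0)) atTop
        (𝓝 (216 * ((1728 * (1728 * C.toNNReal) * 0 ^ 2)) + 7 / 4 *
        (1728 * (1728 * C.toNNReal) * 0 ^ 2))) :=
      (((ht1.pow 2).const_mul _).const_mul _).add (((ht2.pow 2).const_mul _).const_mul _)
    have h2 := ENNReal.tendsto_coe.2 h
    simpa using h2
  have hinf : ∫⁻ ω, (⨅ M, (D M ω) ^ 4) ∂μ = 0 := by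
    refine le_antisymm ?_ zero_le
    refine ge_of_tendsto' hlim fun M => ?_
    exact (lintegral_mono fun ω => iInf_le _ M).trans (hD4 M)
  have hae : ∀ᵐ ω ∂μ, (⨅ M, (D M ω) ^ 4) = 0 := by
    have := (lintegral_eq_zero_iff (Measurable.iInf fun M => (hDm M).pow_const 4)).1 hinf
    exact this
  filter_upwards [hae] with ω hω
  refine cauchySeq_tendsto_of_complete ?_
  rw [Metric.cauchySeq_iff']
  intro ε hε
  have h1 : (⨅ M, (D M ω) ^ 4) < (ENNReal.ofReal ε) ^ 4 := by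
    rw [hω]
    have : 0 < ENNReal.ofReal ε := ENNReal.ofReal_pos.2 hε
    exact ENNReal.pow_pos this 4
  obtain ⟨M, hM⟩ := iInf_lt_iff.1 h1
  have hM' : D M ω < ENNReal.ofReal ε := 
    lt_of_not_ge fun h => not_lt_of_ge (pow_le_pow_left₀ zero_le h 4) hM
  refine ⟨(M, M), fun q hq => ?_⟩
  obtain ⟨m, n⟩ := q
  have hm : M ≤ m := hq.1
  have hn : M ≤ n := hq.2
  have key : ENNReal.ofReal |(∑ i ∈ Finset.range m, ∑ k ∈ Finset.range n, a (i, k) * X i k ω) -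
      ∑ i ∈ Finset.range M, ∑ k ∈ Finset.range M, a (i, k) * X i k ω| < ENNReal.ofReal ε := by
    refine lt_of_le_of_lt ?_ hM'
    have e : (∑ i ∈ Finset.range m, ∑ k ∈ Finset.range n, a (i, k) * X i k ω) -
      ∑ i ∈ Finset.range M, ∑ k ∈ Finset.range M, a (i, k) * X i k ω =
      ∑ i ∈ Finset.Ico 0 m, ∑ k ∈ Finset.Ico 0 n, a1 M (i, k) * X i k ω +
      ∑ i ∈ Finset.Ico 0 M, ∑ k ∈ Finset.Ico 0 n, a2 M (i, k) * X i k ω := by
      have t1 := p6_trunc (fun i => ∑ k ∈ Finset.Ico 0 n, a (i, k) * X i k ω) M m hm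
      have t2 : ∀ i, ∑ k ∈ Finset.Ico 0 n, a2 M (i, k) * X i k ω =
          ∑ k ∈ Finset.Ico 0 n, a (i, k) * X i k ω - ∑ k ∈ Finset.Ico 0 M, a (i, k) * X i k ω := by
        intro i
        rw [← p6_trunc (fun k => a (i, k) * X i k ω) M n hn]
        refine Finset.sum_congr rfl fun k _ => ?_
        simp only [ha2]
        split_ifs <;> simp
      have t3 : ∑ i ∈ Finset.Ico 0 m, ∑ k ∈ Finset.Ico 0 n, a1 M (i, k) * X i k ω =
          ∑ i ∈ Finset.Ico 0 m, (if M ≤ i then ∑ k ∈ Finset.Ico 0 n, a (i, k) * X i k ω else 0) := by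
        refine Finset.sum_congr rfl fun i _ => ?_
        simp only [ha1]
        split_ifs <;> simp
      rw [t3, t1, Finset.sum_congr rfl fun i _ => t2 i, Finset.sum_sub_distrib]
      simp only [Finset.range_eq_Ico]
      ring
    rw [e]
    refine (ENNReal.ofReal_le_ofReal (abs_add_le _ _)).trans ?_
    rw [ENNReal.ofReal_add (abs_nonneg _) (abs_nonneg _)]
    refine add_le_add ?_ ?_
    · exact le_iSup₂ (f := fun m n => ENNReal.ofReal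
        |∑ i ∈ Finset.Ico 0 m, ∑ k ∈ Finset.Ico 0 n, a1 M (i, k) * X i k ω|) m n
    · exact le_iSup₂ (f := fun m n => ENNReal.ofReal
        |∑ i ∈ Finset.Ico 0 m, ∑ k ∈ Finset.Ico 0 n, a2 M (i, k) * X i k ω|) M n
  rw [Real.dist_eq]
  exact (ENNReal.ofReal_lt_ofReal_iff hε).1 key

end conv

theorem p6 : P6 := by
  intro Ω _ μ _ X C hXm hXb hX4 a ha
  have hn : Summable fun q => ‖a q‖₊ ^ 2 := by
    rw [← NNReal.summable_coe]
    simpa using ha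
  have hle : ∀ (S : Set (ℕ × ℕ)), Summable fun q => ‖S.indicator a q‖₊ ^ 2 := by
    intro S
    refine NNReal.summable_of_le (fun q => ?_) hn
    by_cases h : q ∈ S
    · rw [indicator_of_mem h]
    · rw [indicator_of_notMem h]; simp
  have h1 := p6_conv μ X C hXm hXb hX4 a hn
  have h2 : ∀ᵐ ω ∂μ, ∀ i, ∃ l, Tendsto (fun q : ℕ × ℕ => ∑ i' ∈ Finset.range q.1,
      ∑ k ∈ Finset.range q.2, ({q : ℕ × ℕ | q.1 = i}.indicator a) (i', k) * X i' k ω) atTop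
      (𝓝 l) := ae_all_iff.2 fun i => p6_conv μ X C hXm hXb hX4 _ (hle _)
  have h3 : ∀ᵐ ω ∂μ, ∀ k, ∃ l, Tendsto (fun q : ℕ × ℕ => ∑ i ∈ Finset.range q.1,
      ∑ k' ∈ Finset.range q.2, ({q : ℕ × ℕ | q.2 = k}.indicator a) (i, k') * X i k' ω) atTop
      (𝓝 l) := ae_all_iff.2 fun k => p6_conv μ X C hXm hXb hX4 _ (hle _)
  have hdiag : Tendsto (fun n : ℕ => (n, n)) atTop (atTop : Filter (ℕ × ℕ)) :=
    tendsto_atTop_diagonal
  filter_upwards [h1, h2, h3] with ω w1 w2 w3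
  refine ⟨w1, fun i => ?_, fun k => ?_⟩
  · obtain ⟨l, hl⟩ := w2 i
    refine ⟨l, (hl.comp hdiag).congr' ?_⟩
    filter_upwards [eventually_gt_atTop i] with n hn
    simp only [Function.comp_def]
    rw [Finset.sum_eq_single_of_mem i (Finset.mem_range.2 hn)]
    · refine Finset.sum_congr rfl fun k _ => ?_
      rw [indicator_of_mem (by simp)]
    · intro j _ hj
      refine Finset.sum_eq_zero fun k _ => ?_
      rw [indicator_of_notMem (by simpa using hj), zero_mul]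
  · obtain ⟨l, hl⟩ := w3 k
    refine ⟨l, (hl.comp hdiag).congr' ?_⟩
    filter_upwards [eventually_gt_atTop k] with n hn
    simp only [Function.comp_def]
    refine Finset.sum_congr rfl fun i _ => ?_
    rw [Finset.sum_eq_single_of_mem k (Finset.mem_range.2 hn)]
    · rw [indicator_of_mem (by simp)]
    · intro j _ hj
      rw [indicator_of_notMem (by simpa using hj), zero_mul]

end Pool.Agent.R259.DO
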