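import Mathlib
import Pool.Agent.R259.DO.Defs

/-! Piece P7 of MP_aa1cf3_an (helper862): concatenation of finite blocks. -/

set_option autoImplicit false

namespace Pool.Agent.R259.DO

/-- offsets -/
def p7_O (M : ℕ → ℕ) (n : ℕ) : ℕ := ∑ j ∈ Finset.range n, M j

theorem p7_O_succ (M : ℕ → ℕ) (n : ℕ) : p7_O M (n + 1) = p7_O M n + M n := by
  unfold p7_O
  rw [Finset.sum_range_succ]

theorem p7_mono (M : ℕ → ℕ) (hM : ∀ n, 0 < M n) : StrictMono (p7_O M) := by
  apply strictMono_nat_of_lt_succ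
  intro n
  rw [p7_O_succ]
  have := hM n
  omega

theorem p7_ge (M : ℕ → ℕ) (hM : ∀ n, 0 < M n) (n : ℕ) : n ≤ p7_O M n := (p7_mono M hM).id_le n

theorem p7_find (M : ℕ → ℕ) (hM : ∀ n, 0 < M n) (k : ℕ) :
    ∃ n, p7_O M n ≤ k ∧ k < p7_O M (n + 1) := by
  have hex : ∃ n, k < p7_O M n := ⟨k + 1, by have := p7_ge M hM (k + 1); omega⟩
  have h1 := Nat.find_spec hex
  have h0 : Nat.find hex ≠ 0 := by
    intro h
    rw [h] at h1
    simp [p7_O] at h1
  obtain ⟨n, hn⟩ := Nat.exists_eq_succ_of_ne_zero h0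
  refine ⟨n, ?_, ?_⟩
  · have := Nat.find_min hex (m := n) (by omega)
    omega
  · rw [hn] at h1
    exact h1

/-- the sum over a full initial segment -/
theorem p7_sum (M : ℕ → ℕ) (Y : ℕ → ℝ) (n : ℕ) :
    ∑ i ∈ Finset.range (p7_O M n), Y i =
      ∑ n' ∈ Finset.range n, ∑ j : Fin (M n'), Y (p7_O M n' + j) := by
  induction n with
  | zero => simp [p7_O]
  | succ n ih =>
    rw [p7_O_succ, Finset.sum_range_add, ih, Finset.sum_range_succ]
    congr 1
    exact (Fin.sum_univ_eq_sum_range (fun j => Y (p7_O M n + j)) (M n)).symm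

/-- P7. -/
theorem p7 : P7 := by
  intro M hM
  let g : (Σ n, Fin (M n)) → ℕ := fun x => p7_O M x.1 + x.2
  have hg : Function.Bijective g := by
    constructor
    · rintro ⟨n, j⟩ ⟨n', j'⟩ h
      have h' : p7_O M n + j = p7_O M n' + j' := h
      have hj := j.2
      have hj' := j'.2
      have hnn : n = n' := by
        rcases lt_trichotomy n n' with h1 | h1 | h1
        · have := (p7_mono M hM).monotone (show n + 1 ≤ n' from h1)
          rw [p7_O_succ] at this
          omega
        · exact h1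
        · have := (p7_mono M hM).monotone (show n' + 1 ≤ n from h1)
          rw [p7_O_succ] at this
          omega
      subst hnn
      have : j = j' := Fin.ext (by omega)
      rw [this]
    · intro k
      obtain ⟨n, h1, h2⟩ := p7_find M hM k
      rw [p7_O_succ] at h2
      exact ⟨⟨n, ⟨k - p7_O M n, by omega⟩⟩, by
        change p7_O M n + (k - p7_O M n) = k
        omega⟩
  let e : ℕ ≃ (Σ n, Fin (M n)) := (Equiv.ofBijective g hg).symm
  have heg : ∀ x, e (g x) = x := fun x => (Equiv.ofBijective g hg).symm_apply_apply x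
  refine ⟨e, fun X k => ?_⟩
  obtain ⟨x, rfl⟩ := hg.2 k
  rw [heg]
  obtain ⟨n, j⟩ := x
  change ∑ i ∈ Finset.range (p7_O M n + j), X (e i) = _
  have hval : ∀ n' (j' : Fin (M n')), e (p7_O M n' + j') = ⟨n', j'⟩ := fun n' j' => heg ⟨n', j'⟩
  rw [Finset.sum_range_add, p7_sum M (fun i => X (e i)) n]
  congr 1
  · refine Finset.sum_congr rfl fun n' _ => Finset.sum_congr rfl fun j' _ => ?_
    rw [hval]
  · rw [← Finset.sum_filter]
    have h1 : ∀ i ∈ Finset.range (j : ℕ), X (e (p7_O M n + i)) =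
        if h : i < M n then X ⟨n, ⟨i, h⟩⟩ else 0 := by
      intro i hi
      have hi' : i < M n := (Finset.mem_range.1 hi).trans j.2
      rw [dif_pos hi']
      rw [← hval n ⟨i, hi'⟩]
    rw [Finset.sum_congr rfl h1]
    symm
    refine Finset.sum_bij (fun (a : Fin (M n)) _ => (a : ℕ)) ?_ ?_ ?_ ?_
    · intro a ha
      rw [Finset.mem_filter] at ha
      exact Finset.mem_range.2 ha.2
    · intro a _ b _ h
      exact Fin.ext h
    · intro b hb
      have hb' := Finset.mem_range.1 hb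
      exact ⟨⟨b, hb'.trans j.2⟩, Finset.mem_filter.2 ⟨Finset.mem_univ _, hb'⟩, rfl⟩
    · intro a _
      rw [dif_pos a.2]

end Pool.Agent.R259.DO
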