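import Mathlib
import Pool.Agent.R259.DO.Defs

/-! Piece P8 of MP_aa1cf3_an (helper862): assignment of the Walsh functions to the slots. -/

set_option autoImplicit false

namespace Pool.Agent.R259.DO

theorem p8_mem_cube {N : ℕ} {u : Finset ℕ × Finset ℕ} :
    u ∈ cube N ↔ u.1 ⊆ Finset.range N ∧ u.2 ⊆ Finset.range N := by
  unfold cube
  rw [Finset.mem_product, Finset.mem_powerset, Finset.mem_powerset]

theorem p8_cube_mono {M N : ℕ} (h : M ≤ N) : cube M ⊆ cube N := by
  intro u hu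
  rw [p8_mem_cube] at hu ⊢
  have := Finset.range_mono h
  exact ⟨hu.1.trans this, hu.2.trans this⟩

theorem p8_sub (n : ℕ) : L n ⊆ cube n := by
  cases n with
  | zero => exact subset_rfl
  | succ n =>
    intro u hu
    exact (Finset.mem_sdiff.1 (Finset.mem_of_mem_erase hu)).1

theorem p8_not_mem {n : ℕ} {u : Finset ℕ × Finset ℕ} (h : u ∈ L (n + 1)) : u ∉ cube n :=
  (Finset.mem_sdiff.1 (Finset.mem_of_mem_erase h)).2

theorem p8_disj {n m : ℕ} {u : Finset ℕ × Finset ℕ} (h : u ∈ L n) (h' : u ∈ L m) : n = m := by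
  have key : ∀ n m : ℕ, n < m → u ∈ L n → u ∈ L m → False := by
    intro n m hnm h h'
    obtain ⟨k, rfl⟩ : ∃ k, m = k + 1 := ⟨m - 1, by omega⟩
    exact p8_not_mem h' (p8_cube_mono (by omega : n ≤ k) (p8_sub n h))
  rcases lt_trichotomy n m with h1 | h1 | h1
  · exact (key n m h1 h h').elim
  · exact h1
  · exact (key m n h1 h' h).elim

/-- the non-Rademacher indices -/
def p8_NR (u : Finset ℕ × Finset ℕ) : Prop := ∀ j : ℕ, u ≠ ({j}, ∅)

theorem p8_NR_of_mem {n : ℕ} {u : Finset ℕ × Finset ℕ} (h : u ∈ L n) : p8_NR u := by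
  rintro j rfl
  cases n with
  | zero =>
    have h1 := (p8_mem_cube.1 (p8_sub 0 h)).1
    simp at h1
  | succ n =>
    have h1 := (p8_mem_cube.1 (p8_sub _ h)).1
    have h2 := p8_not_mem h
    rw [p8_mem_cube] at h2
    have h3 : j < n + 1 := by
      have := h1 (Finset.mem_singleton_self j)
      exact Finset.mem_range.1 this
    have h4 : ¬ j < n := by
      intro h4
      exact h2 ⟨by simpa using h4, by simp⟩
    have h5 : j = n := by omega
    subst h5
    exact (Finset.mem_erase.1 h).1 rfl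

theorem p8_exists {u : Finset ℕ × Finset ℕ} (h : p8_NR u) : ∃ n, u ∈ L n := by
  classical
  have hex : ∃ n, u ∈ cube n := by
    refine ⟨(u.1 ∪ u.2).sup id + 1, ?_⟩
    rw [p8_mem_cube]
    constructor
    · intro x hx
      have : x ≤ (u.1 ∪ u.2).sup id :=
        Finset.le_sup (f := id) (Finset.mem_union_left _ hx)
      exact Finset.mem_range.2 (by omega)
    · intro x hx
      have : x ≤ (u.1 ∪ u.2).sup id :=
        Finset.le_sup (f := id) (Finset.mem_union_right _ hx)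
      exact Finset.mem_range.2 (by omega)
  have h1 := Nat.find_spec hex
  refine ⟨Nat.find hex, ?_⟩
  rcases Nat.eq_zero_or_pos (Nat.find hex) with h0 | h0
  · rw [h0] at h1 ⊢
    exact h1
  · obtain ⟨m, hm⟩ : ∃ m, Nat.find hex = m + 1 := ⟨Nat.find hex - 1, by omega⟩
    have h2 := Nat.find_min hex (m := m) (by omega)
    rw [hm] at h1 ⊢
    exact Finset.mem_erase.2 ⟨h m, Finset.mem_sdiff.2 ⟨h1, h2⟩⟩

/-- the left side -/
noncomputable def p8_e1 : (Σ n, Fin ((L n).card)) ≃ {u // p8_NR u} :=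
  Equiv.ofBijective
    (fun x => ⟨((L x.1).equivFin.symm x.2).1, p8_NR_of_mem ((L x.1).equivFin.symm x.2).2⟩) (by
      constructor
      · rintro ⟨n, l⟩ ⟨n', l'⟩ h
        have h' : ((L n).equivFin.symm l).1 = ((L n').equivFin.symm l').1 := congrArg Subtype.val h
        have hn : n = n' := p8_disj ((L n).equivFin.symm l).2 (h' ▸ ((L n').equivFin.symm l').2)
        subst hn
        have : l = l' := (L n).equivFin.symm.injective (Subtype.ext h')
        rw [this]
      · rintro ⟨u, hu⟩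
        obtain ⟨n, hn⟩ := p8_exists hu
        refine ⟨⟨n, (L n).equivFin ⟨u, hn⟩⟩, ?_⟩
        apply Subtype.ext
        simp)

/-- P8. -/
theorem p8 : P8 := by
  classical
  intro P hP
  let S := (Σ n, Fin ((L n).card) × Fin (P n)) ⊕ (ℕ × ℕ)
  let Z : S → Prop := fun s => ∃ n l, s = Sum.inl ⟨n, l, ⟨0, hP n⟩⟩
  let e0 : (Σ n, Fin ((L n).card)) ≃ {s // Z s} := Equiv.ofBijective
    (fun x => ⟨Sum.inl ⟨x.1, x.2, ⟨0, hP x.1⟩⟩, x.1, x.2, rfl⟩) (by
      constructor
      · rintro ⟨n, l⟩ ⟨n', l'⟩ h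
        have h1 := Sum.inl_injective (congrArg Subtype.val h)
        have hn : n = n' := congrArg Sigma.fst h1
        subst hn
        have h2 := eq_of_heq (Sigma.mk.inj h1).2
        have h3 : l = l' := congrArg Prod.fst h2
        rw [h3]
      · rintro ⟨s, n, l, rfl⟩
        exact ⟨⟨n, l⟩, rfl⟩)
  have hi1 : Infinite {s // ¬ Z s} := by
    refine Infinite.of_injective (fun q : ℕ × ℕ => (⟨Sum.inr q, ?_⟩ : {s // ¬ Z s})) ?_
    · rintro ⟨n, l, h⟩
      exact absurd h (by simp)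
    · intro a b h
      exact Sum.inr_injective (congrArg Subtype.val h)
  have hi2 : Infinite {u // ¬ p8_NR u} := by
    refine Infinite.of_injective (fun j : ℕ => (⟨({j}, ∅), ?_⟩ : {u // ¬ p8_NR u})) ?_
    · intro h
      exact h j rfl
    · intro a b h
      have h1 := congrArg Prod.fst (congrArg Subtype.val h)
      exact Finset.singleton_injective h1
  obtain ⟨e2⟩ := nonempty_equiv_of_countable (α := {s // ¬ Z s}) (β := {u // ¬ p8_NR u})
  let τ : S ≃ (Finset ℕ × Finset ℕ) :=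
    (Equiv.sumCompl Z).symm.trans ((Equiv.sumCongr (e0.symm.trans p8_e1) e2).trans
      (Equiv.sumCompl p8_NR))
  have hpos : ∀ n l, τ (Sum.inl ⟨n, l, ⟨0, hP n⟩⟩) = (p8_e1 ⟨n, l⟩).1 := by
    intro n l
    have hz : Z (Sum.inl ⟨n, l, ⟨0, hP n⟩⟩) := ⟨n, l, rfl⟩
    have h1 : (Equiv.sumCompl Z).symm (Sum.inl ⟨n, l, ⟨0, hP n⟩⟩) = Sum.inl ⟨_, hz⟩ :=
      Equiv.sumCompl_symm_apply_of_pos hz
    have h2 : e0.symm ⟨_, hz⟩ = ⟨n, l⟩ := by
      rw [Equiv.symm_apply_eq]
      rfl
    simp only [τ, Equiv.trans_apply, h1, Equiv.sumCongr_apply, Sum.map_inl, h2,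
      Equiv.sumCompl_apply_inl]
  have hneg : ∀ s, ¬ Z s → ∃ j : ℕ, τ s = ({j}, ∅) := by
    intro s hs
    have h1 : (Equiv.sumCompl Z).symm s = Sum.inr ⟨s, hs⟩ :=
      Equiv.sumCompl_symm_apply_of_neg hs
    have h2 : τ s = (e2 ⟨s, hs⟩).1 := by
      simp only [τ, Equiv.trans_apply, h1, Equiv.sumCongr_apply, Sum.map_inr,
        Equiv.sumCompl_apply_inr]
    have h3 := (e2 ⟨s, hs⟩).2
    rw [p8_NR] at h3
    push Not at h3
    obtain ⟨j, hj⟩ := h3
    exact ⟨j, h2.trans hj⟩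
  refine ⟨τ, ?_, ?_, ?_⟩
  · intro n l
    rw [hpos]
    exact ((L n).equivFin.symm l).2
  · intro n l t ht
    apply hneg
    rintro ⟨n', l', h⟩
    have h1 := Sum.inl_injective h
    have hn : n = n' := congrArg Sigma.fst h1
    subst hn
    have h2 := eq_of_heq (Sigma.mk.inj h1).2
    exact ht (congrArg Prod.snd h2)
  · intro q
    apply hneg
    rintro ⟨n, l, h⟩
    exact absurd h (by simp)

end Pool.Agent.R259.DO
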